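import Mathlib

/-!
Basic dimension lemmas for finite dimensional subspaces of commutative algebras.
-/

namespace VolMat

open Submodule Module

section Gen

variable {K : Type*} [Field K] {V V' : Type*} [AddCommGroup V] [Module K V]
  [AddCommGroup V'] [Module K V']

lemma finrank_le_of_le {S T : Submodule K V} (hT : T.FG) (h : S ≤ T) :
    finrank K S ≤ finrank K T := by
  have : Module.Finite K T := Module.Finite.iff_fg.mpr hT
  exact Submodule.finrank_mono h

lemma FG_of_le {S T : Submodule K V} (hT : T.FG) (h : S ≤ T) : S.FG := by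
  have : Module.Finite K T := Module.Finite.iff_fg.mpr hT
  have : IsNoetherian K T := inferInstance
  have : (Submodule.comap T.subtype S).FG := IsNoetherian.noetherian _
  have h2 := this.map T.subtype
  rwa [Submodule.map_comap_subtype, inf_eq_right.mpr h] at h2

lemma finrank_eq_map_add_ker {T : Submodule K V} (hT : T.FG) (f : V →ₗ[K] V') :
    finrank K T = finrank K (T.map f) + finrank K (T ⊓ LinearMap.ker f : Submodule K V) := by
  have : Module.Finite K T := Module.Finite.iff_fg.mpr hT
  have h := LinearMap.finrank_range_add_finrank_ker (f.domRestrict T)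
  have h1 : LinearMap.range (f.domRestrict T) = T.map f := by
    ext x
    simp [Submodule.mem_map]
  have h2 : finrank K (LinearMap.ker (f.domRestrict T)) =
      finrank K (T ⊓ LinearMap.ker f : Submodule K V) := by
    have h3 : (T ⊓ LinearMap.ker f : Submodule K V) =
        (LinearMap.ker (f.domRestrict T)).map T.subtype := by
      ext x
      simp only [Submodule.mem_inf, LinearMap.mem_ker, Submodule.mem_map, Submodule.subtype_apply,
        Subtype.exists, LinearMap.domRestrict_apply, exists_and_right, exists_eq_right]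
      constructor
      · rintro ⟨a, b⟩; exact ⟨a, b⟩
      · rintro ⟨a, b⟩; exact ⟨a, b⟩
    rw [h3]
    exact (LinearEquiv.finrank_eq (Submodule.equivMapOfInjective T.subtype
      (Submodule.injective_subtype T) _))
  rw [h1, h2] at h
  exact h.symm

lemma finrank_map_of_inj (f : V →ₗ[K] V') (hf : Function.Injective f) (S : Submodule K V) :
    finrank K (S.map f) = finrank K S :=
  (LinearEquiv.finrank_eq (Submodule.equivMapOfInjective f hf S)).symm

lemma finrank_map_of_reg (f : V →ₗ[K] V') (hf : ∀ a, f a = 0 → a = 0) (S : Submodule K V) :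
    finrank K (S.map f) = finrank K S :=
  finrank_map_of_inj f ((injective_iff_map_eq_zero f).mpr hf) S

lemma finrank_map_le' (f : V →ₗ[K] V') {S : Submodule K V} (hS : S.FG) :
    finrank K (S.map f) ≤ finrank K S := by
  have := finrank_eq_map_add_ker hS f
  omega

end Gen

section Alg

variable {K : Type*} [Field K] {A B : Type*} [CommRing A] [Algebra K A] [CommRing B] [Algebra K B]

/-- the space spanned by `1` and `u` -/
def Ls (K : Type*) [Field K] {A : Type*} [CommRing A] [Algebra K A] (u : A) : Submodule K A :=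
  span K {1, u}

lemma Ls_fg (u : A) : (Ls K u).FG := Submodule.fg_span (Set.toFinite _)

lemma one_mem_Ls (u : A) : (1 : A) ∈ Ls K u := subset_span (by simp)

lemma mem_Ls (u : A) : u ∈ Ls K u := subset_span (by simp)

lemma one_le_Ls (u : A) : (1 : Submodule K A) ≤ Ls K u := by
  rw [Submodule.one_le]; exact one_mem_Ls u

lemma Ls_le {u : A} {S : Submodule K A} (h1 : (1 : A) ∈ S) (hu : u ∈ S) : Ls K u ≤ S := by
  rw [Ls, span_le]
  rintro x (rfl | rfl)
  · exact h1
  · exact hu

lemma Ls_zero : Ls K (0 : A) = 1 := by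
  apply le_antisymm
  · exact Ls_le (Submodule.one_le.mp le_rfl) (zero_mem _)
  · exact one_le_Ls _

lemma map_Ls (φ : A →ₐ[K] B) (u : A) : (Ls K u).map φ.toLinearMap = Ls K (φ u) := by
  rw [Ls, Submodule.map_span, Ls]
  congr 1
  ext x
  simp [eq_comm]

lemma mem_Ls_mul {u : A} {S : Submodule K A} {x : A} :
    x ∈ Ls K u * S ↔ ∃ a ∈ S, ∃ b ∈ S, x = a + u * b := by
  constructor
  · intro hx
    refine Submodule.mul_induction_on hx ?_ ?_
    · intro m hm n hn
      rw [Ls, mem_span_pair] at hm
      obtain ⟨c, d, rfl⟩ := hm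
      refine ⟨c • n, S.smul_mem _ hn, d • n, S.smul_mem _ hn, ?_⟩
      simp [add_mul]
    · rintro x y ⟨a, ha, b, hb, rfl⟩ ⟨a', ha', b', hb', rfl⟩
      exact ⟨a + a', S.add_mem ha ha', b + b', S.add_mem hb hb', by ring⟩
  · rintro ⟨a, ha, b, hb, rfl⟩
    refine add_mem ?_ (Submodule.mul_mem_mul (mem_Ls u) hb)
    simpa using Submodule.mul_mem_mul (one_mem_Ls (K := K) u) ha

lemma le_Ls_mul (u : A) (S : Submodule K A) : S ≤ Ls K u * S := by
  intro x hx
  rw [mem_Ls_mul]
  exact ⟨x, hx, 0, zero_mem _, by simp⟩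

/-- multiplication by `u` as a linear map -/
lemma mulLeft_map_le (u : A) (S : Submodule K A) :
    S.map (LinearMap.mulLeft K u) ≤ Ls K u * S := by
  rintro _ ⟨x, hx, rfl⟩
  exact Submodule.mul_mem_mul (mem_Ls u) hx

lemma map_Ls_mul_cut (φ : A →ₐ[K] B) {u : A} (hu : φ u = 0) (S : Submodule K A) :
    (Ls K u * S).map φ.toLinearMap = S.map φ.toLinearMap := by
  rw [Submodule.map_mul, map_Ls, hu, Ls_zero, one_mul]

lemma map_Ls_pow_mul_cut (φ : A →ₐ[K] B) {u : A} (hu : φ u = 0) (S : Submodule K A) (N : ℕ) :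
    ((Ls K u) ^ N * S).map φ.toLinearMap = S.map φ.toLinearMap := by
  rw [Submodule.map_mul, Submodule.map_pow, map_Ls, hu, Ls_zero, one_pow, one_mul]

/-- lower bound: multiplication by `⟨1,u⟩` -/
lemma LB1 (φ : A →ₐ[K] B) {u : A} (hu : φ u = 0) (hreg : ∀ a, u * a = 0 → a = 0)
    {S : Submodule K A} (hS : S.FG) :
    finrank K S + finrank K (S.map φ.toLinearMap) ≤ finrank K (Ls K u * S : Submodule K A) := by
  have hT : (Ls K u * S).FG := (Ls_fg u).mul hS
  have h := finrank_eq_map_add_ker hT φ.toLinearMap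
  rw [map_Ls_mul_cut φ hu] at h
  have h2 : finrank K S ≤ finrank K ((Ls K u * S) ⊓ LinearMap.ker φ.toLinearMap : Submodule K A) := by
    rw [← finrank_map_of_reg (LinearMap.mulLeft K u) (by simpa using hreg) S]
    apply finrank_le_of_le (FG_of_le hT inf_le_left)
    apply le_inf (mulLeft_map_le u S)
    rintro _ ⟨x, hx, rfl⟩
    simp [hu]
  omega

/-- upper bound -/
lemma UBcut (φ : A →ₐ[K] B) {u : A} 
    {S T : Submodule K A} (hS : S.FG) (hT : T.FG)
    (h : ∀ x ∈ T, φ x = 0 → ∃ y ∈ S, x = u * y) :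
    finrank K T ≤ finrank K S + finrank K (T.map φ.toLinearMap) := by
  have h1 := finrank_eq_map_add_ker hT φ.toLinearMap
  have h2 : finrank K (T ⊓ LinearMap.ker φ.toLinearMap : Submodule K A) ≤ finrank K S := by
    refine le_trans (finrank_le_of_le (hS.map (LinearMap.mulLeft K u)) ?_)
      (finrank_map_le' (LinearMap.mulLeft K u) hS)
    rintro x ⟨hx, hx2⟩
    obtain ⟨y, hy, rfl⟩ := h x hx (by simpa using hx2)
    exact ⟨y, hy, rfl⟩
  omega

end Alg

end VolMat
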