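import Pool.Agent.Work.MP_9eee85_co.Basic

/-!
Vector configurations and the spaces `Pp`, `Cc`, `W0`.
-/

namespace VolMat

open Submodule Module

section Rank

variable {K : Type*} [Field K] {U : Type*} [AddCommGroup U] [Module K U] {ι : Type*}

/-- span of the vectors indexed by `S` -/
def sp (K : Type*) [Field K] {U : Type*} [AddCommGroup U] [Module K U] {ι : Type*}
    (η : ι → U) (S : Finset ι) : Submodule K U := span K (η '' (S : Set ι))

/-- rank -/
noncomputable def rk (K : Type*) [Field K] {U : Type*} [AddCommGroup U] [Module K U] {ι : Type*}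
    (η : ι → U) (S : Finset ι) : ℕ := finrank K (sp K η S)

/-- nullity -/
noncomputable def nul (K : Type*) [Field K] {U : Type*} [AddCommGroup U] [Module K U] {ι : Type*}
    (η : ι → U) (S : Finset ι) : ℕ := S.card - rk K η S

lemma sp_fg (η : ι → U) (S : Finset ι) : (sp K η S).FG :=
  Submodule.fg_span ((S.finite_toSet).image _)

lemma sp_mono (η : ι → U) {S T : Finset ι} (h : S ⊆ T) : sp K η S ≤ sp K η T :=
  span_mono (Set.image_mono (by exact_mod_cast h))

lemma rk_mono (η : ι → U) {S T : Finset ι} (h : S ⊆ T) : rk K η S ≤ rk K η T :=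
  finrank_le_of_le (sp_fg η T) (sp_mono η h)

lemma mem_sp (η : ι → U) {S : Finset ι} {e : ι} (he : e ∈ S) : η e ∈ sp K η S :=
  subset_span ⟨e, by exact_mod_cast he, rfl⟩

lemma sp_insert [DecidableEq ι] (η : ι → U) (S : Finset ι) (e : ι) :
    sp K η (insert e S) = span K {η e} ⊔ sp K η S := by
  rw [sp, sp, Finset.coe_insert, Set.image_insert_eq, Submodule.span_insert]

lemma rk_le_card (η : ι → U) (S : Finset ι) : rk K η S ≤ S.card := by
  classical
  have h : sp K η S = span K ((S.image η : Finset U) : Set U) := by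
    rw [sp, Finset.coe_image]
  rw [rk, h]
  exact (finrank_span_finset_le_card (S.image η)).trans Finset.card_image_le

lemma rk_insert_le [DecidableEq ι] (η : ι → U) (S : Finset ι) (e : ι) :
    rk K η (insert e S) ≤ rk K η S + 1 := by
  rw [rk, rk, sp_insert]
  have : Module.Finite K (sp K η S) := Module.Finite.iff_fg.mpr (sp_fg η S)
  have h := Submodule.finrank_add_le_finrank_add_finrank (span K {η e}) (sp K η S)
  have h2 : finrank K (span K {η e}) ≤ 1 :=
    (finrank_span_le_card ({η e} : Set U)).trans (by simp)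
  omega

lemma nul_mono_insert [DecidableEq ι] (η : ι → U) (S : Finset ι) (e : ι) :
    nul K η S ≤ nul K η (insert e S) := by
  by_cases he : e ∈ S
  · rw [Finset.insert_eq_of_mem he]
  · have h1 := rk_insert_le (K := K) η S e
    have h2 := rk_le_card (K := K) η S
    have h3 := Finset.card_insert_of_notMem he
    unfold nul
    omega

lemma nul_mono [DecidableEq ι] (η : ι → U) {S T : Finset ι} (h : S ⊆ T) :
    nul K η S ≤ nul K η T := by
  have key : ∀ R : Finset ι, nul K η S ≤ nul K η (S ∪ R) := by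
    intro R
    induction R using Finset.induction_on with
    | empty => simp
    | insert a R _ ih =>
      rw [Finset.union_insert]
      exact ih.trans (nul_mono_insert η _ a)
  have := key T
  rwa [Finset.union_eq_right.mpr h] at this

lemma nul_add_rk (η : ι → U) (S : Finset ι) : nul K η S + rk K η S = S.card := by
  have := rk_le_card (K := K) η S
  unfold nul; omega

end Rank

section Spaces

variable {K : Type*} [Field K] {U : Type*} [AddCommGroup U] [Module K U] {ι : Type*}
  {A : Type*} [CommRing A] [Algebra K A] {B : Type*} [CommRing B] [Algebra K B]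

/-- product of the spaces `⟨1, y_e⟩` over `Q` -/
def Pp (j : U →ₗ[K] A) (η : ι → U) (Q : Finset ι) : Submodule K A := ∏ e ∈ Q, Ls K (j (η e))

/-- span of the powers `z_a ^ b`, `a + b ≤ k` -/
def Cc (j : U →ₗ[K] A) (ζ : ℕ → U) (k : ℕ) : Submodule K A :=
  span K {x | ∃ a b, a + b ≤ k ∧ x = j (ζ a) ^ b}

/-- the space `W_0` -/
noncomputable def W0 [DecidableEq ι] (j : U →ₗ[K] A) (η : ι → U) (ζ : ℕ → U) (E : Finset ι) : Submodule K A :=
  ⨆ S ∈ E.powerset, Pp j η (E \ S) * Cc j ζ (nul K η S)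

variable (j : U →ₗ[K] A) (η : ι → U) (ζ : ℕ → U)

lemma Cc_fg (k : ℕ) : (Cc j ζ k).FG := by
  apply Submodule.fg_span
  have : {x | ∃ a b, a + b ≤ k ∧ x = j (ζ a) ^ b} ⊆
      (fun p : ℕ × ℕ => j (ζ p.1) ^ p.2) '' (Set.Iic k ×ˢ Set.Iic k) := by
    rintro x ⟨a, b, hab, rfl⟩
    exact ⟨(a, b), ⟨by simp; omega, by simp; omega⟩, rfl⟩
  exact (((Set.finite_Iic k).prod (Set.finite_Iic k)).image _).subset this

lemma one_mem_Cc (k : ℕ) : (1 : A) ∈ Cc j ζ k := subset_span ⟨0, 0, by omega, by simp⟩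

lemma Cc_mono {k l : ℕ} (h : k ≤ l) : Cc j ζ k ≤ Cc j ζ l := by
  apply span_mono
  rintro x ⟨a, b, hab, rfl⟩
  exact ⟨a, b, hab.trans h, rfl⟩

lemma Cc_zero : Cc j ζ 0 = 1 := by
  apply le_antisymm
  · rw [Cc, span_le]
    rintro x ⟨a, b, hab, rfl⟩
    have : b = 0 := by omega
    subst this
    simp only [pow_zero, SetLike.mem_coe]
    exact Submodule.one_le.mp le_rfl
  · rw [Submodule.one_le]; exact one_mem_Cc j ζ 0

lemma prod_fg {S : Finset ι} {f : ι → Submodule K A} (h : ∀ e ∈ S, (f e).FG) :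
    (∏ e ∈ S, f e).FG := by
  classical
  induction S using Finset.induction_on with
  | empty =>
    rw [Finset.prod_empty, Submodule.one_eq_span]
    exact Submodule.fg_span (Set.toFinite _)
  | insert a S ha ih =>
    rw [Finset.prod_insert ha]
    exact (h a (Finset.mem_insert_self _ _)).mul (ih fun e he => h e (Finset.mem_insert_of_mem he))

lemma Pp_fg (Q : Finset ι) : (Pp j η Q).FG := prod_fg fun _ _ => Ls_fg _

lemma one_mem_prod {S : Finset ι} {f : ι → Submodule K A} (h : ∀ e ∈ S, (1 : A) ∈ f e) :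
    (1 : A) ∈ ∏ e ∈ S, f e := by
  classical
  induction S using Finset.induction_on with
  | empty => rw [Finset.prod_empty]; exact Submodule.one_le.mp le_rfl
  | insert a S ha ih =>
    rw [Finset.prod_insert ha]
    simpa using Submodule.mul_mem_mul (h a (Finset.mem_insert_self _ _))
      (ih fun e he => h e (Finset.mem_insert_of_mem he))

lemma one_mem_Pp (Q : Finset ι) : (1 : A) ∈ Pp j η Q := one_mem_prod fun _ _ => one_mem_Ls _

lemma le_mul_of_one_mem_right {S T : Submodule K A} (h : (1 : A) ∈ T) : S ≤ S * T := by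
  intro x hx
  simpa using Submodule.mul_mem_mul hx h

lemma le_mul_of_one_mem_left {S T : Submodule K A} (h : (1 : A) ∈ S) : T ≤ S * T := by
  intro x hx
  simpa using Submodule.mul_mem_mul h hx

variable [DecidableEq ι]

lemma Pp_union {Q R : Finset ι} (h : Disjoint Q R) : Pp j η Q * Pp j η R = Pp j η (Q ∪ R) := by
  rw [Pp, Pp, Pp, Finset.prod_union h]

lemma Pp_mono {Q R : Finset ι} (h : Q ⊆ R) : Pp j η Q ≤ Pp j η R := by
  rw [← Finset.union_sdiff_of_subset h, ← Pp_union j η Finset.disjoint_sdiff]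
  exact le_mul_of_one_mem_right (one_mem_Pp _ _ _)

lemma le_W0 {E S : Finset ι} (h : S ⊆ E) : Pp j η (E \ S) * Cc j ζ (nul K η S) ≤ W0 j η ζ E :=
  le_iSup₂_of_le S (Finset.mem_powerset.mpr h) le_rfl

lemma W0_fg (E : Finset ι) : (W0 j η ζ E).FG := by
  have : W0 j η ζ E = E.powerset.sup fun S => Pp j η (E \ S) * Cc j ζ (nul K η S) := by
    rw [Finset.sup_eq_iSup]; rfl
  rw [this]
  exact Submodule.fg_finset_sup _ _ fun S _ => (Pp_fg _ _ _).mul (Cc_fg _ _ _)

lemma Pp_le_W0 (E : Finset ι) : Pp j η E ≤ W0 j η ζ E := by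
  have h := le_W0 j η ζ (Finset.empty_subset E)
  rw [Finset.sdiff_empty] at h
  exact (le_mul_of_one_mem_right (one_mem_Cc _ _ _)).trans h

lemma Cc_le_W0 (E : Finset ι) : Cc j ζ (nul K η E) ≤ W0 j η ζ E :=
  (le_mul_of_one_mem_left (one_mem_Pp _ _ _)).trans (le_W0 j η ζ (Finset.Subset.refl E))

lemma one_mem_W0 (E : Finset ι) : (1 : A) ∈ W0 j η ζ E := Pp_le_W0 j η ζ E (one_mem_Pp _ _ _)

lemma Ls_le_W0 {E : Finset ι} {e : ι} (he : e ∈ E) : Ls K (j (η e)) ≤ W0 j η ζ E := by
  refine le_trans ?_ (Pp_le_W0 j η ζ E)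
  have := Pp_mono j η (Finset.singleton_subset_iff.mpr he)
  simpa [Pp] using this

lemma map_Pp (φ : A →ₐ[K] B) (Q : Finset ι) :
    (Pp j η Q).map φ.toLinearMap = Pp (φ.toLinearMap ∘ₗ j) η Q := by
  induction Q using Finset.induction_on with
  | empty =>
    simp only [Pp, Finset.prod_empty]
    exact Submodule.map_one φ
  | insert a S ha ih =>
    simp only [Pp, Finset.prod_insert ha] at ih ⊢
    rw [Submodule.map_mul, ih, map_Ls]
    rfl

lemma map_Cc (φ : A →ₐ[K] B) (k : ℕ) :
    (Cc j ζ k).map φ.toLinearMap = Cc (φ.toLinearMap ∘ₗ j) ζ k := by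
  rw [Cc, Submodule.map_span, Cc]
  congr 1
  ext x
  constructor
  · rintro ⟨_, ⟨a, b, h, rfl⟩, rfl⟩
    exact ⟨a, b, h, by simp⟩
  · rintro ⟨a, b, h, rfl⟩
    exact ⟨_, ⟨a, b, h, rfl⟩, by simp⟩

lemma map_W0 (φ : A →ₐ[K] B) (E : Finset ι) :
    (W0 j η ζ E).map φ.toLinearMap = W0 (φ.toLinearMap ∘ₗ j) η ζ E := by
  rw [W0, W0, Submodule.map_iSup]
  refine iSup_congr fun S => ?_
  rw [Submodule.map_iSup]
  refine iSup_congr fun hS => ?_
  rw [Submodule.map_mul, map_Pp, map_Cc]

end Spaces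

end VolMat
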