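import Pool.Agent.Work.MP_9eee85_co.Sym

/-!
Contraction, loops, lower bound for the powers of `W0`.
-/

namespace VolMat

open Submodule Module

section RankQuo

variable {K : Type*} [Field K] {U : Type*} [AddCommGroup U] [Module K U] {ι : Type*}

/-- configuration in the quotient -/
def qc (u : U) {α : Type*} (η : α → U) : α → Quo K u := fun e => (span K {u}).mkQ (η e)

lemma sp_qc (u : U) (η : ι → U) (S : Finset ι) :
    sp K (qc (K := K) u η) S = (sp K η S).map (span K {u}).mkQ := by
  rw [sp, sp, Submodule.map_span]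
  congr 1
  ext x
  simp [qc]

lemma rk_qc (u : U) (η : ι → U) (S : Finset ι) :
    rk K (qc (K := K) u η) S + finrank K (sp K η S ⊓ span K {u} : Submodule K U) = rk K η S := by
  rw [rk, rk, sp_qc]
  have h := finrank_eq_map_add_ker (sp_fg η S) (span K {u}).mkQ
  rw [Submodule.ker_mkQ] at h
  exact h.symm

variable [DecidableEq ι]

lemma sp_qc_insert {η : ι → U} (f : ι) (S : Finset ι) :
    sp K (qc (K := K) (η f) η) S = (sp K η (insert f S)).map (span K {η f}).mkQ := by
  rw [sp_qc, sp_insert, Submodule.map_sup]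
  have : (span K {η f}).map (span K {η f}).mkQ = ⊥ := by
    rw [Submodule.map_span, Set.image_singleton, Submodule.span_singleton_eq_bot,
      Submodule.mkQ_apply, Submodule.Quotient.mk_eq_zero]
    exact mem_span_singleton_self _
  rw [this, bot_sup_eq]

lemma rk_contract {η : ι → U} {f : ι} (hf : η f ≠ 0) (S : Finset ι) :
    rk K (qc (K := K) (η f) η) S + 1 = rk K η (insert f S) := by
  rw [rk, rk, sp_qc_insert]
  have h := finrank_eq_map_add_ker (sp_fg η (insert f S)) (span K {η f}).mkQ
  rw [Submodule.ker_mkQ] at h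
  have h2 : sp K η (insert f S) ⊓ span K {η f} = span K {η f} := by
    apply inf_eq_right.mpr
    rw [span_le]
    rintro _ rfl
    exact mem_sp (K := K) η (Finset.mem_insert_self _ _)
  rw [h2, finrank_span_singleton hf] at h
  exact h.symm

lemma nul_contract {η : ι → U} {f : ι} (hf : η f ≠ 0) {S : Finset ι} (hS : f ∉ S) :
    nul K (qc (K := K) (η f) η) S = nul K η (insert f S) := by
  have h := rk_contract (K := K) hf S
  have h2 := Finset.card_insert_of_notMem hS
  unfold nul
  omega

lemma rk_of_zero {η : ι → U} {f : ι} (hf : η f = 0) (S : Finset ι) :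
    rk K η (insert f S) = rk K η S := by
  rw [rk, rk, sp_insert, hf, Submodule.span_zero_singleton, bot_sup_eq]

lemma nul_of_zero {η : ι → U} {f : ι} (hf : η f = 0) {S : Finset ι} (hS : f ∉ S) :
    nul K η (insert f S) = nul K η S + 1 := by
  have h := rk_of_zero (K := K) hf S
  have h2 := Finset.card_insert_of_notMem hS
  have h3 := nul_add_rk (K := K) η S
  unfold nul at *
  omega

lemma rk_qc_of_notMem {η : ι → U} {z : U} {E S : Finset ι} (hS : S ⊆ E) (hz : z ∉ sp K η E) :
    rk K (qc (K := K) z η) S = rk K η S := by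
  have h := rk_qc (K := K) z η S
  have : sp K η S ⊓ span K {z} = ⊥ := by
    rw [eq_bot_iff]
    rintro x ⟨hx, hx2⟩
    rw [SetLike.mem_coe, mem_span_singleton] at hx2
    obtain ⟨a, rfl⟩ := hx2
    by_cases ha : a = 0
    · simp [ha]
    · exact absurd (sp_mono η hS (((sp K η S).smul_mem_iff ha).mp hx)) hz
  rw [this, finrank_bot] at h
  omega

lemma nul_qc_of_notMem {η : ι → U} {z : U} {E S : Finset ι} (hS : S ⊆ E) (hz : z ∉ sp K η E) :
    nul K (qc (K := K) z η) S = nul K η S := by
  unfold nul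
  rw [rk_qc_of_notMem hS hz]

lemma sum_qc (u : U) (ζ : ℕ → U) (c : ℕ → K) (T : Finset ℕ) :
    ∑ i ∈ T, c i • qc (K := K) u ζ i = (span K {u}).mkQ (∑ i ∈ T, c i • ζ i) := by
  simp [qc, map_sum]

lemma mem_sup_of_mkQ {u x : U} {S : Submodule K U}
    (h : (span K {u}).mkQ x ∈ S.map (span K {u}).mkQ) : x ∈ S ⊔ span K {u} := by
  obtain ⟨y, hy, hxy⟩ := h
  have : x - y ∈ span K {u} := by
    rw [← Submodule.Quotient.mk_eq_zero, Submodule.Quotient.mk_sub]
    simp only [Submodule.mkQ_apply] at hxy
    rw [hxy, sub_self]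
  have h2 : x = y + (x - y) := by abel
  rw [h2]
  exact add_mem (Submodule.mem_sup_left hy) (Submodule.mem_sup_right this)

lemma Good.contract {η : ι → U} {ζ : ℕ → U} {E : Finset ι} (h : Good K η ζ E) {f : ι}
    (hf : η f ≠ 0) (hfE : f ∈ E) :
    Good K (qc (K := K) (η f) η) (qc (K := K) (η f) ζ) (E.erase f) := by
  have hn : nul K (qc (K := K) (η f) η) (E.erase f) = nul K η E := by
    rw [nul_contract hf (Finset.notMem_erase f E), Finset.insert_erase hfE]
  intro c hc
  rw [hn] at hc ⊢
  rw [sum_qc, sp_qc_insert, Finset.insert_erase hfE] at hc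
  have h2 := mem_sup_of_mkQ hc
  have h3 : sp K η E ⊔ span K {η f} = sp K η E := by
    apply sup_eq_left.mpr
    rw [span_le]
    rintro _ rfl
    exact mem_sp (K := K) η hfE
  rw [h3] at h2
  exact h c h2

lemma Good.loop {η : ι → U} {ζ : ℕ → U} {E : Finset ι} (h : Good K η ζ E) {e : ι}
    (he : η e = 0) (heE : e ∈ E) :
    Good K (qc (K := K) (ζ 0) η) (fun i => qc (K := K) (ζ 0) ζ (i + 1)) (E.erase e) := by
  have hn := nul_of_zero (K := K) he (Finset.notMem_erase e E)
  rw [Finset.insert_erase heE] at hn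
  have hz := h.zeta_notMem (by omega)
  have hn2 : nul K (qc (K := K) (ζ 0) η) (E.erase e) = nul K η (E.erase e) :=
    nul_qc_of_notMem (Finset.erase_subset _ _) hz
  intro c hc
  rw [hn2] at hc ⊢
  have h1 : ∑ i ∈ Finset.range (nul K η (E.erase e)), c i • qc (K := K) (ζ 0) ζ (i + 1) =
      (span K {ζ 0}).mkQ (∑ i ∈ Finset.range (nul K η (E.erase e)), c i • ζ (i + 1)) :=
    sum_qc (ζ 0) (fun i => ζ (i + 1)) c _
  rw [h1, sp_qc] at hc
  have h2 := mem_sup_of_mkQ hc
  refine h.shift hn c ?_
  have h3 := sup_le_sup_right (sp_mono (K := K) η (Finset.erase_subset e E)) (span K {ζ 0})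
  exact h3 h2

end RankQuo

section Restrict

variable {K : Type*} [Field K] {U : Type*} [AddCommGroup U] [Module K U] {ι : Type*}
  [DecidableEq ι]

lemma cut_comp (u : U) : (cut (K := K) u).toLinearMap ∘ₗ SymmetricAlgebra.ι K U =
    SymmetricAlgebra.ι K (Quo K u) ∘ₗ (span K {u}).mkQ := by
  refine LinearMap.ext fun v => ?_
  exact cut_ι u v

lemma map_cut_Pp (u : U) (η : ι → U) (Q : Finset ι) :
    (Pp (SymmetricAlgebra.ι K U) η Q).map (cut (K := K) u).toLinearMap =
      Pp (SymmetricAlgebra.ι K (Quo K u)) (qc u η) Q := by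
  rw [map_Pp, cut_comp]; rfl

lemma map_cut_Cc (u : U) (ζ : ℕ → U) (k : ℕ) :
    (Cc (SymmetricAlgebra.ι K U) ζ k).map (cut (K := K) u).toLinearMap =
      Cc (SymmetricAlgebra.ι K (Quo K u)) (qc u ζ) k := by
  rw [map_Cc, cut_comp]; rfl

lemma map_cut_W0 (u : U) (η : ι → U) (ζ : ℕ → U) (E : Finset ι) :
    (W0 (SymmetricAlgebra.ι K U) η ζ E).map (cut (K := K) u).toLinearMap =
      ⨆ S ∈ E.powerset, Pp (SymmetricAlgebra.ι K (Quo K u)) (qc u η) (E \ S) *
        Cc (SymmetricAlgebra.ι K (Quo K u)) (qc u ζ) (nul K η S) := by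
  rw [W0, Submodule.map_iSup]
  refine iSup_congr fun S => ?_
  rw [Submodule.map_iSup]
  refine iSup_congr fun hS => ?_
  rw [Submodule.map_mul, map_cut_Pp, map_cut_Cc]

lemma Pp_erase {A : Type*} [CommRing A] [Algebra K A] (j : U →ₗ[K] A) {η : ι → U} {f : ι}
    (hf : η f = 0) (Q : Finset ι) : Pp j η Q = Pp j η (Q.erase f) := by
  by_cases h : f ∈ Q
  · have : Pp j η Q = Ls K (j (η f)) * Pp j η (Q.erase f) := by
      rw [Pp, Pp, Finset.mul_prod_erase Q (fun e => Ls K (j (η e))) h]
    rw [this, hf, map_zero, Ls_zero, one_mul]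
  · rw [Finset.erase_eq_of_notMem h]

/-- (R): contraction -/
theorem map_cut_W0_contract {η : ι → U} (ζ : ℕ → U) {E : Finset ι} {f : ι}
    (hf : η f ≠ 0) (hfE : f ∈ E) :
    (W0 (SymmetricAlgebra.ι K U) η ζ E).map (cut (K := K) (η f)).toLinearMap =
      W0 (SymmetricAlgebra.ι K (Quo K (η f))) (qc (η f) η) (qc (η f) ζ) (E.erase f) := by
  have hq : qc (K := K) (η f) η f = 0 := by
    simp [qc]
  rw [map_cut_W0]
  apply le_antisymm
  · refine iSup₂_le fun S hS => ?_
    rw [Finset.mem_powerset] at hS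
    refine le_trans ?_ (le_W0 _ _ _ (S := S.erase f) (Finset.erase_subset_erase f hS))
    refine mul_le_mul' ?_ ?_
    · rw [Pp_erase _ hq (E \ S)]
      apply Pp_mono
      intro x hx
      simp only [Finset.mem_erase, Finset.mem_sdiff] at hx ⊢
      tauto
    · apply Cc_mono
      rw [nul_contract hf (Finset.notMem_erase f S)]
      apply nul_mono
      intro x hx
      by_cases hxf : x = f
      · simp [hxf]
      · simp [hxf, hx]
  · refine iSup₂_le fun S hS => ?_
    rw [Finset.mem_powerset] at hS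
    have hfS : f ∉ S := fun h => Finset.notMem_erase f E (hS h)
    refine le_iSup₂_of_le (insert f S) ?_ ?_
    · rw [Finset.mem_powerset]
      exact Finset.insert_subset hfE (hS.trans (Finset.erase_subset _ _))
    · rw [nul_contract hf hfS]
      refine mul_le_mul' ?_ le_rfl
      apply Pp_mono
      intro x hx
      simp only [Finset.mem_erase, Finset.mem_sdiff, Finset.mem_insert] at hx ⊢
      tauto

/-- (L): loops -/
theorem map_cut_W0_loop {η : ι → U} {ζ : ℕ → U} {E : Finset ι} (hG : Good K η ζ E) {e : ι}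
    (he : η e = 0) (heE : e ∈ E) :
    W0 (SymmetricAlgebra.ι K (Quo K (ζ 0))) (qc (ζ 0) η) (fun i => qc (ζ 0) ζ (i + 1))
      (E.erase e) ≤ (W0 (SymmetricAlgebra.ι K U) η ζ E).map (cut (K := K) (ζ 0)).toLinearMap := by
  have hn := nul_of_zero (K := K) he (Finset.notMem_erase e E)
  rw [Finset.insert_erase heE] at hn
  have hz := hG.zeta_notMem (by omega)
  rw [map_cut_W0]
  refine iSup₂_le fun S hS => ?_
  rw [Finset.mem_powerset] at hS
  have heS : e ∉ S := fun h => Finset.notMem_erase e E (hS h)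
  have hSE : S ⊆ E := hS.trans (Finset.erase_subset _ _)
  refine le_iSup₂_of_le (insert e S) ?_ ?_
  · rw [Finset.mem_powerset]
    exact Finset.insert_subset heE hSE
  · refine mul_le_mul' ?_ ?_
    · apply Pp_mono
      intro x hx
      simp only [Finset.mem_erase, Finset.mem_sdiff, Finset.mem_insert] at hx ⊢
      tauto
    · rw [nul_of_zero he heS, nul_qc_of_notMem hSE hz, Cc, span_le]
      rintro x ⟨a, b, hab, rfl⟩
      exact subset_span ⟨a + 1, b, by omega, rfl⟩

end Restrict

section LB

variable {K : Type*} [Field K] {A : Type*} [CommRing A] [Algebra K A] {ι : Type*}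
  [DecidableEq ι]

lemma LBprod {Q : Submodule K A} (hQ : Q.FG) (g : ι → A) (d : ℕ) (S : Finset ι)
    (h : ∀ e ∈ S, ∀ T : Submodule K A, T.FG → Q ≤ T →
      finrank K T + d ≤ finrank K (Ls K (g e) * T : Submodule K A)) :
    finrank K Q + S.card * d ≤ finrank K ((∏ e ∈ S, Ls K (g e)) * Q : Submodule K A) := by
  induction S using Finset.induction_on with
  | empty => rw [Finset.prod_empty, one_mul, Finset.card_empty, zero_mul, add_zero]
  | insert a S ha ih =>
    have ih' := ih fun e he => h e (Finset.mem_insert_of_mem he)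
    rw [Finset.prod_insert ha, Finset.card_insert_of_notMem ha, mul_assoc]
    have h1 := h a (Finset.mem_insert_self _ _) ((∏ e ∈ S, Ls K (g e)) * Q)
      ((prod_fg fun _ _ => Ls_fg _).mul hQ)
      (le_mul_of_one_mem_left (one_mem_prod fun _ _ => one_mem_Ls _))
    rw [add_mul]
    omega

lemma Ls_pow_le_Cc {U : Type*} [AddCommGroup U] [Module K U] (j : U →ₗ[K] A) (ζ : ℕ → U)
    (m : ℕ) : (Ls K (j (ζ 0))) ^ m ≤ Cc j ζ m := by
  classical
  rw [← Ls_pow_eq, span_le]
  intro x hx
  simp only [Finset.coe_image, Set.mem_image, Finset.coe_range, Set.mem_Iio] at hx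
  obtain ⟨i, hi, rfl⟩ := hx
  exact subset_span ⟨0, i, by omega, rfl⟩

end LB

section LBW

variable {K : Type*} [Field K] {A B : Type*} [CommRing A] [Algebra K A] [CommRing B] [Algebra K B]

lemma one_le_finrank [Nontrivial A] {S : Submodule K A} (hS : S.FG) (h : (1 : A) ∈ S) :
    1 ≤ finrank K S := by
  have : Module.Finite K S := Module.Finite.iff_fg.mpr hS
  have : Nontrivial S := ⟨⟨⟨1, h⟩, 0, fun h => one_ne_zero (congrArg Subtype.val h)⟩⟩
  exact finrank_pos

lemma LBcut (φ : A →ₐ[K] B) {u : A} (hu : φ u = 0) (hreg : ∀ a, u * a = 0 → a = 0)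
    {Q T : Submodule K A} (hT : T.FG) (hQT : Q ≤ T) {d : ℕ}
    (hd : d ≤ finrank K (Q.map φ.toLinearMap)) :
    finrank K T + d ≤ finrank K (Ls K u * T : Submodule K A) := by
  refine le_trans ?_ (LB1 φ hu hreg hT)
  have := finrank_le_of_le (hT.map φ.toLinearMap) (Submodule.map_mono (f := φ.toLinearMap) hQT)
  omega

end LBW

section LB2

universe u v

variable {K : Type v} [Field K] {ι : Type*} [DecidableEq ι]

lemma rk_filter_zero {U : Type*} [AddCommGroup U] [Module K U] (η : ι → U) (S : Finset ι)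
    (h : ∀ e ∈ S, η e = 0) : rk K η S = 0 := by
  have : sp K η S = ⊥ := by
    rw [sp, Submodule.span_eq_bot]
    rintro _ ⟨e, he, rfl⟩
    exact h e (by exact_mod_cast he)
  rw [rk, this, finrank_bot]

open Classical in
lemma prod_le_W0 {U : Type*} [AddCommGroup U] [Module K U] {A : Type*} [CommRing A] [Algebra K A]
    (j : U →ₗ[K] A) (η : ι → U) (ζ : ℕ → U) (E : Finset ι) :
    (∏ e ∈ E, Ls K (if η e = 0 then j (ζ 0) else j (η e))) ≤ W0 j η ζ E := by
  rw [← Finset.prod_filter_mul_prod_filter_not E (fun e => η e = 0)]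
  set L := E.filter (fun e => η e = 0) with hL
  have h1 : ∏ e ∈ L, Ls K (if η e = 0 then j (ζ 0) else j (η e)) = (Ls K (j (ζ 0))) ^ L.card := by
    rw [Finset.prod_congr rfl (g := fun _ => Ls K (j (ζ 0))), Finset.prod_const]
    intro e he
    rw [hL, Finset.mem_filter] at he
    rw [if_pos he.2]
  have h2 : ∏ e ∈ E.filter (fun e => ¬ η e = 0), Ls K (if η e = 0 then j (ζ 0) else j (η e)) =
      Pp j η (E \ L) := by
    rw [hL, ← Finset.filter_not, Pp]
    refine Finset.prod_congr rfl fun e he => ?_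
    rw [Finset.mem_filter] at he
    rw [if_neg he.2]
  rw [h1, h2, mul_comm]
  have h3 : nul K η L = L.card := by
    have := rk_filter_zero (K := K) η L (fun e he => by
      rw [hL, Finset.mem_filter] at he; exact he.2)
    unfold nul
    omega
  refine le_trans ?_ (le_W0 j η ζ (Finset.filter_subset (fun e => η e = 0) E))
  rw [← hL, h3]
  exact mul_le_mul' le_rfl (Ls_pow_le_Cc j ζ _)

open Classical in
/-- Lower bound for the powers of `W0`. -/
theorem LB2 : ∀ (n : ℕ) (U : Type u) [AddCommGroup U] [Module K U] (η : ι → U) (ζ : ℕ → U)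
    (E : Finset ι), E.card = n → Good K η ζ E → ∀ a : ℕ,
      a.descFactorial n ≤
        finrank K ((W0 (SymmetricAlgebra.ι K U) η ζ E) ^ a :
          Submodule K (SymmetricAlgebra K U)) := by
  intro n
  induction n with
  | zero =>
    intro U _ _ η ζ E hE hG a
    rw [Nat.descFactorial_zero]
    exact one_le_finrank ((W0_fg _ _ _ _).pow a) (Submodule.one_le.mp
      (one_le_pow_of_one_le' (Submodule.one_le.mpr (one_mem_W0 _ _ _ _)) a))
  | succ n ihn =>
    intro U _ _ η ζ E hE hG a
    induction a with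
    | zero => simp
    | succ a iha =>
      have hfg : ((W0 (SymmetricAlgebra.ι K U) η ζ E) ^ a).FG := (W0_fg _ _ _ _).pow a
      have h1 : (∏ e ∈ E, Ls K (if η e = 0 then SymmetricAlgebra.ι K U (ζ 0) else
          SymmetricAlgebra.ι K U (η e))) * (W0 (SymmetricAlgebra.ι K U) η ζ E) ^ a ≤
          (W0 (SymmetricAlgebra.ι K U) η ζ E) ^ (a + 1) := by
        rw [pow_succ']
        exact mul_le_mul' (prod_le_W0 _ η ζ E) le_rfl
      have h2 := LBprod hfg (fun e => if η e = 0 then SymmetricAlgebra.ι K U (ζ 0) else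
          SymmetricAlgebra.ι K U (η e)) (a.descFactorial n) E ?_
      · have h3 := finrank_le_of_le ((W0_fg _ _ _ _).pow (a + 1)) h1
        rw [hE] at h2
        have h4 : (a + 1).descFactorial (n + 1) ≤
            a.descFactorial (n + 1) + (n + 1) * a.descFactorial n := by
          rw [Nat.succ_descFactorial_succ, Nat.descFactorial_succ]
          by_cases han : n ≤ a
          · obtain ⟨b, rfl⟩ := Nat.exists_eq_add_of_le han
            have : n + b - n = b := by omega
            rw [this]
            nlinarith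
          · rw [Nat.descFactorial_eq_zero_iff_lt.mpr (by omega)]
            simp
        omega
      · intro e he T hT hQT
        have hcard : (E.erase e).card = n := by
          rw [Finset.card_erase_of_mem he, hE]; rfl
        by_cases h0 : η e = 0
        · have hn := nul_of_zero (K := K) h0 (Finset.notMem_erase e E)
          rw [Finset.insert_erase he] at hn
          have hz := hG.zeta_notMem (by omega)
          have hz0 : ζ 0 ≠ 0 := fun h => hz (by rw [h]; exact zero_mem _)
          rw [if_pos h0]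
          refine LBcut (cut (ζ 0)) (cut_self _) (fun a h => ι_reg hz0 a h) hT hQT ?_
          rw [Submodule.map_pow]
          refine (ihn (Quo K (ζ 0)) _ _ (E.erase e) hcard (hG.loop h0 he) a).trans ?_
          apply finrank_le_of_le (((W0_fg _ _ _ _).map _).pow a)
          exact pow_le_pow_left' (map_cut_W0_loop hG h0 he) a
        · rw [if_neg h0]
          refine LBcut (cut (η e)) (cut_self _) (fun a h => ι_reg h0 a h) hT hQT ?_
          rw [Submodule.map_pow, map_cut_W0_contract ζ h0 he]
          exact ihn (Quo K (η e)) _ _ (E.erase e) hcard (hG.contract h0 he) a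

end LB2

end VolMat
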