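import Mathlib

/-!
Finite extensions of a rational function field of any given degree.
-/

namespace VolMat

open Polynomial

universe u

theorem exists_cover (K : Type u) [Field K] (n : ℕ) (hn : 0 < n) (N : ℕ) (hN : 0 < N) :
    ∃ (L : Type u) (_ : Field L) (_ : Algebra (FractionRing (MvPolynomial (Fin n) K)) L),
      Module.finrank (FractionRing (MvPolynomial (Fin n) K)) L = N := by
  let R := MvPolynomial (Fin n) K
  let x : R := MvPolynomial.X ⟨0, hn⟩
  let f : R[X] := X ^ N - C x
  have hmon : f.Monic := monic_X_pow_sub_C x hN.ne'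
  have hdeg : f.natDegree = N := natDegree_X_pow_sub_C
  have hprime : Prime x := MvPolynomial.X_prime
  have hP : (Ideal.span {x}).IsPrime := (Ideal.span_singleton_prime hprime.ne_zero).mpr hprime
  have hirr : Irreducible f := by
    refine irreducible_of_eisenstein_criterion hP ?_ ?_ ?_ ?_ hmon.isPrimitive
    · rw [hmon.leadingCoeff]
      exact fun h => hP.ne_top ((Ideal.eq_top_iff_one _).mpr h)
    · intro i hi
      have hi' : i < N := by
        rw [degree_eq_natDegree hmon.ne_zero, hdeg] at hi
        exact_mod_cast hi
      simp only [f, coeff_sub, coeff_X_pow, coeff_C]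
      rw [if_neg hi'.ne]
      split_ifs with h
      · rw [zero_sub, Ideal.neg_mem_iff]
        exact Ideal.mem_span_singleton_self x
      · simp
    · rw [degree_eq_natDegree hmon.ne_zero, hdeg]
      exact_mod_cast hN
    · simp only [f, coeff_sub, coeff_X_pow, coeff_C, if_neg hN.ne, if_true, zero_sub]
      rw [Ideal.span_singleton_pow, Ideal.neg_mem_iff, Ideal.mem_span_singleton]
      rintro ⟨c, hc⟩
      have h1 : x * (x * c - 1) = 0 := by
        have : x ^ 2 * c = x := hc.symm
        calc x * (x * c - 1) = x ^ 2 * c - x := by ring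
          _ = 0 := by rw [this, sub_self]
      rcases mul_eq_zero.mp h1 with h | h
      · exact hprime.ne_zero h
      · exact hprime.not_isUnit (IsUnit.of_mul_eq_one c (sub_eq_zero.mp h))
  have hirr2 : Irreducible (f.map (algebraMap R (FractionRing R))) :=
    (Polynomial.Monic.irreducible_iff_irreducible_map_fraction_map hmon).mp hirr
  have : Fact (Irreducible (f.map (algebraMap R (FractionRing R)))) := ⟨hirr2⟩
  refine ⟨AdjoinRoot (f.map (algebraMap R (FractionRing R))), inferInstance, inferInstance, ?_⟩
  rw [(AdjoinRoot.powerBasis hirr2.ne_zero).finrank, AdjoinRoot.powerBasis_dim]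
  rw [Monic.natDegree_map hmon, hdeg]

end VolMat
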