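import Pool.Agent.Work.MP_9eee85_co.Semi
import Pool.Agent.Work.MP_9eee85_co.Config

/-!
The upper bound `dim W0^a ≤ (a+1)^n`, by degeneration.
-/

namespace VolMat

open Submodule Module

section Good

variable {K : Type*} [Field K] {U : Type*} [AddCommGroup U] [Module K U] {ι : Type*}

/-- the first `nul E` vectors `ζ` are independent modulo the span of `η` over `E` -/
def Good (K : Type*) [Field K] {U : Type*} [AddCommGroup U] [Module K U] {ι : Type*}
    (η : ι → U) (ζ : ℕ → U) (E : Finset ι) : Prop :=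
  ∀ c : ℕ → K, ∑ i ∈ Finset.range (nul K η E), c i • ζ i ∈ sp K η E →
    ∀ i < nul K η E, c i = 0

lemma Good.zeta_notMem {η : ι → U} {ζ : ℕ → U} {E : Finset ι} (h : Good K η ζ E)
    (hk : 0 < nul K η E) : ζ 0 ∉ sp K η E := by
  intro h0
  have := h (fun i => if i = 0 then 1 else 0) (by
    rw [Finset.sum_eq_single_of_mem 0 (Finset.mem_range.mpr hk)]
    · simpa using h0
    · intro i _ hi
      simp [hi]) 0 hk
  simp at this

/-- the independence of the shifted vectors modulo `sp E + ⟨ζ 0⟩` -/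
lemma Good.shift {η : ι → U} {ζ : ℕ → U} {E : Finset ι} (h : Good K η ζ E) {k : ℕ}
    (hk : nul K η E = k + 1) (c : ℕ → K)
    (hc : ∑ i ∈ Finset.range k, c i • ζ (i + 1) ∈ sp K η E ⊔ span K {ζ 0}) :
    ∀ i < k, c i = 0 := by
  rw [Submodule.mem_sup] at hc
  obtain ⟨y, hy, z, hz, hyz⟩ := hc
  rw [Submodule.mem_span_singleton] at hz
  obtain ⟨b, rfl⟩ := hz
  have := h (fun i => if i = 0 then -b else c (i - 1)) (by
    rw [hk, Finset.sum_range_succ']
    simp only [Nat.add_eq_zero_iff, one_ne_zero, and_false, if_false, Nat.add_sub_cancel, if_true]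
    rw [← hyz]
    simpa using hy)
  intro i hi
  have h2 := this (i + 1) (by omega)
  simpa using h2

end Good

section Dep

variable {K : Type*} [Field K] {U : Type*} [AddCommGroup U] [Module K U] {ι : Type*}

lemma rk_eq_card_iff {η : ι → U} {Q : Finset ι} :
    rk K η Q = Q.card ↔ LinearIndepOn K η (Q : Set ι) := by
  rw [LinearIndepOn, linearIndependent_iff_card_eq_finrank_span, Set.finrank, rk, sp,
    Set.image_eq_range]
  simp [eq_comm]

lemma exists_relation {η : ι → U} {Q : Finset ι} (h : rk K η Q < Q.card) :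
    ∃ f : ι → K, ∑ i ∈ Q, f i • η i = 0 ∧ ∃ i ∈ Q, f i ≠ 0 := by
  apply not_linearIndepOn_finset_iff.mp
  rw [← rk_eq_card_iff]
  omega

lemma exists_mu [Infinite K] (η : ι → U) (E : Finset ι) :
    ∃ μ : ι → K, ∀ Q ⊆ E, rk K η Q < Q.card →
      ∃ f : ι → K, ∑ i ∈ Q, f i • η i = 0 ∧ ∑ i ∈ Q, f i * μ i ≠ 0 := by
  classical
  let J := {Q : Finset ι // Q ∈ E.powerset ∧ rk K η Q < Q.card}
  have hJ : Finite J := by
    apply Finite.of_injective (fun q : J => (⟨q.1, q.2.1⟩ : E.powerset))
    intro a b h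
    have h2 := congrArg Subtype.val h
    exact Subtype.ext h2
  choose f hf hf2 using fun q : J => exists_relation q.2.2
  let v : J → (ι →₀ K) := fun q => ∑ i ∈ q.1, Finsupp.single i (f q i)
  have hv : ∀ q, v q ≠ 0 := by
    intro q hq
    obtain ⟨i, hi, hi2⟩ := hf2 q
    have := congrArg (fun g => g i) hq
    simp only [v, Finsupp.finsetSum_apply, Finsupp.single_apply, Finsupp.coe_zero,
      Pi.zero_apply] at this
    rw [Finset.sum_ite_eq' ] at this
    simp [hi] at this
    exact hi2 this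
  obtain ⟨g, hg⟩ := Module.exists_dual_forall_apply_ne_zero (K := K) v hv
  refine ⟨fun i => g (Finsupp.single i 1), ?_⟩
  intro Q hQ hr
  refine ⟨f ⟨Q, Finset.mem_powerset.mpr hQ, hr⟩, hf ⟨Q, Finset.mem_powerset.mpr hQ, hr⟩, ?_⟩
  have h1 := hg ⟨Q, Finset.mem_powerset.mpr hQ, hr⟩
  simp only [v, map_sum] at h1
  convert h1 using 2 with i hi
  have : Finsupp.single i (f ⟨Q, Finset.mem_powerset.mpr hQ, hr⟩ i) =
      f ⟨Q, Finset.mem_powerset.mpr hQ, hr⟩ i • Finsupp.single i (1 : K) := by simp
  rw [this, map_smul, smul_eq_mul]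

/-- the perturbed configuration -/
def pert (η : ι → U) (z : U) (μ : ι → K) (c : K) : ι → U := fun e => η e + (c * μ e) • z

lemma mem_sp_pert {η : ι → U} {z : U} {μ : ι → K} {c : K} (hc : c ≠ 0) {Q : Finset ι}
    {f : ι → K} (h1 : ∑ i ∈ Q, f i • η i = 0) (h2 : ∑ i ∈ Q, f i * μ i ≠ 0) :
    z ∈ sp K (pert η z μ c) Q := by
  have h3 : (c * ∑ i ∈ Q, f i * μ i) • z ∈ sp K (pert η z μ c) Q := by
    have : (c * ∑ i ∈ Q, f i * μ i) • z = ∑ i ∈ Q, f i • pert η z μ c i := by
      simp only [pert, smul_add, Finset.sum_add_distrib, h1, zero_add, smul_smul]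
      rw [← Finset.sum_smul, Finset.mul_sum]
      congr 1
      exact Finset.sum_congr rfl fun i _ => by ring
    rw [this]
    exact sum_mem fun i hi => Submodule.smul_mem _ _ (mem_sp _ hi)
  exact ((sp K (pert η z μ c) Q).smul_mem_iff (mul_ne_zero hc h2)).mp h3

lemma sp_pert_le (η : ι → U) (z : U) (μ : ι → K) (c : K) (S : Finset ι) :
    sp K (pert η z μ c) S ≤ sp K η S ⊔ span K {z} := by
  rw [sp, span_le]
  rintro _ ⟨e, he, rfl⟩
  exact add_mem (Submodule.mem_sup_left (mem_sp η (by exact_mod_cast he)))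
    (Submodule.mem_sup_right (Submodule.smul_mem _ _ (mem_span_singleton_self z)))

lemma sp_pert_eq {η : ι → U} {z : U} {μ : ι → K} {c : K} {S : Finset ι}
    (hz : z ∈ sp K (pert η z μ c) S) :
    sp K (pert η z μ c) S = sp K η S ⊔ span K {z} := by
  apply le_antisymm (sp_pert_le η z μ c S)
  apply sup_le
  · rw [sp, span_le]
    rintro _ ⟨e, he, rfl⟩
    have h1 := mem_sp (K := K) (pert η z μ c) (S := S) (e := e) (by exact_mod_cast he)
    have : η e = pert η z μ c e - (c * μ e) • z := by simp [pert]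
    rw [SetLike.mem_coe, this]
    exact sub_mem h1 (Submodule.smul_mem _ _ hz)
  · rw [span_le]
    rintro _ rfl
    exact hz

lemma rk_pert_le (η : ι → U) (z : U) (μ : ι → K) (c : K) (S : Finset ι) :
    rk K (pert η z μ c) S ≤ rk K η S + 1 := by
  have hfg : (sp K η S ⊔ span K {z}).FG := (sp_fg η S).sup (Submodule.fg_span_singleton z)
  have h1 := finrank_le_of_le hfg (sp_pert_le η z μ c S)
  have : Module.Finite K (sp K η S) := Module.Finite.iff_fg.mpr (sp_fg η S)
  have h := Submodule.finrank_add_le_finrank_add_finrank (sp K η S) (span K {z})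
  have h2 : finrank K (span K {z}) ≤ 1 :=
    (finrank_span_le_card ({z} : Set U)).trans (by simp)
  unfold rk
  omega

lemma nul_le_nul_pert (η : ι → U) (z : U) (μ : ι → K) (c : K) (S : Finset ι) :
    nul K η S ≤ nul K (pert η z μ c) S + 1 := by
  have := rk_pert_le η z μ c S
  unfold nul
  omega

lemma rk_pert_eq {η : ι → U} {z : U} {μ : ι → K} {c : K} {S : Finset ι}
    (hz : z ∈ sp K (pert η z μ c) S) (hz2 : z ∉ sp K η S) :
    rk K (pert η z μ c) S = rk K η S + 1 := by
  apply le_antisymm (rk_pert_le η z μ c S)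
  rw [rk, rk, sp_pert_eq hz]
  have hfg : (sp K η S ⊔ span K {z}).FG := (sp_fg η S).sup (Submodule.fg_span_singleton z)
  have : Module.Finite K (sp K η S ⊔ span K {z} : Submodule K U) := Module.Finite.iff_fg.mpr hfg
  apply Submodule.finrank_lt_finrank_of_lt
  apply lt_of_le_of_ne le_sup_left
  intro heq
  apply hz2
  rw [heq]
  exact Submodule.mem_sup_right (mem_span_singleton_self z)

end Dep

section Degen

variable {K : Type*} [Field K] {U : Type*} [AddCommGroup U] [Module K U] {ι : Type*}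
  [DecidableEq ι] {A : Type*} [CommRing A] [Algebra K A]

lemma pow_mem_aux (j : U →ₗ[K] A) {η η' : ι → U} {z : U} {E S : Finset ι} (hS : S ⊆ E)
    (hz : ∀ Q ⊆ E, rk K η Q < Q.card → z ∈ sp K η' Q) (b : ℕ) (hb : b ≤ nul K η S) :
    j z ^ b ∈ span K {x | ∃ I ⊆ S, I.card = b ∧ x = ∏ e ∈ I, j (η' e)} := by
  induction b with
  | zero => exact subset_span ⟨∅, by simp, by simp, by simp⟩
  | succ b ih =>
    have ih' := ih (by omega)
    rw [pow_succ']
    refine Submodule.span_induction (p := fun x _ => j z * x ∈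
      span K {x | ∃ I ⊆ S, I.card = b + 1 ∧ x = ∏ e ∈ I, j (η' e)}) ?_ ?_ ?_ ?_ ih'
    · rintro x ⟨I, hI, hIc, rfl⟩
      have hcard : (S \ I).card = S.card - b := by
        rw [Finset.card_sdiff_of_subset hI, hIc]
      have hrk := rk_mono (K := K) η (Finset.sdiff_subset (s := S) (t := I))
      have hn := nul_add_rk (K := K) η S
      have hz1 := hz (S \ I) (Finset.sdiff_subset.trans hS) (by omega)
      let H := span K {x | ∃ I ⊆ S, I.card = b + 1 ∧ x = ∏ e ∈ I, j (η' e)}
      have hle : sp K η' (S \ I) ≤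
          H.comap ((LinearMap.mulRight K (∏ e ∈ I, j (η' e))) ∘ₗ j) := by
        rw [sp, span_le]
        rintro _ ⟨e, he, rfl⟩
        have he' : e ∈ S \ I := by exact_mod_cast he
        rw [Finset.mem_sdiff] at he'
        simp only [SetLike.mem_coe, Submodule.mem_comap, LinearMap.comp_apply,
          LinearMap.mulRight_apply]
        refine subset_span ⟨insert e I, ?_, ?_, ?_⟩
        · exact Finset.insert_subset he'.1 hI
        · rw [Finset.card_insert_of_notMem he'.2, hIc]
        · rw [Finset.prod_insert he'.2]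
      have := hle hz1
      simpa using this
    · simp
    · intro x y _ _ hx hy
      rw [mul_add]; exact add_mem hx hy
    · intro a x _ hx
      rw [mul_smul_comm]; exact Submodule.smul_mem _ _ hx

lemma prod_mem_Pp (j : U →ₗ[K] A) (η : ι → U) (I : Finset ι) :
    ∏ e ∈ I, j (η e) ∈ Pp j η I := by
  induction I using Finset.induction_on with
  | empty => simpa using one_mem_Pp j η ∅
  | insert a S ha ih =>
    rw [Finset.prod_insert ha, Pp, Finset.prod_insert ha]
    exact Submodule.mul_mem_mul (mem_Ls _) ih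

lemma pow_mem_Pp (j : U →ₗ[K] A) {η η' : ι → U} {z : U} {E S : Finset ι} (hS : S ⊆ E)
    (hz : ∀ Q ⊆ E, rk K η Q < Q.card → z ∈ sp K η' Q) (b : ℕ) (hb : b ≤ nul K η S) :
    j z ^ b ∈ Pp j η' S := by
  have h := pow_mem_aux j hS hz b hb
  refine (span_le.mpr ?_ : span K {x | ∃ I ⊆ S, I.card = b ∧ x = ∏ e ∈ I, j (η' e)} ≤ _) h
  rintro x ⟨I, hI, _, rfl⟩
  exact Pp_mono j η' hI (prod_mem_Pp j η' I)

/-- the degenerate family lands in the new `W0` -/
lemma family_le (j : U →ₗ[K] A) {η η' : ι → U} {ζ : ℕ → U} {E : Finset ι}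
    (hz : ∀ Q ⊆ E, rk K η Q < Q.card → ζ 0 ∈ sp K η' Q)
    (hn : ∀ S, nul K η S ≤ nul K η' S + 1) :
    (⨆ S ∈ E.powerset, Pp j η' (E \ S) * Cc j ζ (nul K η S)) ≤
      W0 j η' (fun i => ζ (i + 1)) E := by
  refine iSup₂_le fun S hS => ?_
  rw [Finset.mem_powerset] at hS
  rw [Submodule.mul_le]
  intro m hm n hn'
  refine Submodule.span_induction (p := fun x _ => m * x ∈ W0 j η' (fun i => ζ (i + 1)) E)
    ?_ ?_ ?_ ?_ hn'
  · rintro x ⟨a, b, hab, rfl⟩
    cases a with
    | zero =>
      have h1 := pow_mem_Pp j hS hz b (by omega)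
      have h2 : m * j (ζ 0) ^ b ∈ Pp j η' (E \ S) * Pp j η' S := Submodule.mul_mem_mul hm h1
      rw [Pp_union j η' Finset.sdiff_disjoint, Finset.sdiff_union_of_subset hS] at h2
      exact Pp_le_W0 j η' _ E h2
    | succ a =>
      refine le_W0 j η' _ hS (Submodule.mul_mem_mul hm ?_)
      refine subset_span ⟨a, b, ?_, rfl⟩
      have := hn S
      by_cases hb : b = 0
      · omega
      · omega
  · simp
  · intro x y _ _ hx hy
    rw [mul_add]; exact add_mem hx hy
  · intro a x _ hx
    rw [mul_smul_comm]; exact Submodule.smul_mem _ _ hx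

open Polynomial in
lemma map_prod_Ls {B : Type*} [CommRing B] [Algebra K B] (φ : B →ₐ[K] A) (g : ι → B)
    (Q : Finset ι) : (∏ e ∈ Q, Ls K (g e)).map φ.toLinearMap = ∏ e ∈ Q, Ls K (φ (g e)) := by
  induction Q using Finset.induction_on with
  | empty => simp only [Finset.prod_empty]; exact Submodule.map_one φ
  | insert a S ha ih =>
    rw [Finset.prod_insert ha, Finset.prod_insert ha, Submodule.map_mul, ih, map_Ls]

open Polynomial in
/-- one degeneration step -/
lemma degen_step [Infinite K] (j : U →ₗ[K] A) {η : ι → U} {ζ : ℕ → U} {E : Finset ι} {k : ℕ}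
    (hk : nul K η E = k + 1) (hG : Good K η ζ E) (a : ℕ) :
    ∃ (η' : ι → U) (ζ' : ℕ → U), nul K η' E = k ∧ Good K η' ζ' E ∧
      finrank K ((W0 j η ζ E) ^ a : Submodule K A) ≤
        finrank K ((W0 j η' ζ' E) ^ a : Submodule K A) := by
  obtain ⟨μ, hμ⟩ := exists_mu (K := K) η E
  let g : ι → A[X] := fun e => C (j (η e)) + C (algebraMap K A (μ e) * j (ζ 0)) * X
  have hg : ∀ c e, evc A c (g e) = j (pert η (ζ 0) μ c e) := by
    intro c e
    rw [evc_apply]
    simp only [g, pert, eval_add, eval_C, eval_mul, eval_X, map_add, map_smul, Algebra.smul_def,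
      map_mul]
    ring
  let κ : A →ₐ[K] A[X] := IsScalarTower.toAlgHom K A A[X]
  have hκ : ∀ (c : K) (x : A), evc A c (κ x) = x := by
    intro c x
    rw [evc_apply]
    simp [κ]
  have hκ2 : ∀ (c : K) (T : Submodule K A), (T.map κ.toLinearMap).map (evc A c).toLinearMap = T := by
    intro c T
    ext x
    constructor
    · rintro ⟨_, ⟨y, hy, rfl⟩, rfl⟩
      have := hκ c y
      simp only [AlgHom.toLinearMap_apply] at *
      rwa [this]
    · intro hx
      exact ⟨κ x, ⟨x, hx, rfl⟩, hκ c x⟩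
  let F : Submodule K A[X] := ⨆ S ∈ E.powerset,
    (∏ e ∈ E \ S, Ls K (g e)) * (Cc j ζ (nul K η S)).map κ.toLinearMap
  have hFfg : F.FG := by
    have : F = E.powerset.sup fun S =>
        (∏ e ∈ E \ S, Ls K (g e)) * (Cc j ζ (nul K η S)).map κ.toLinearMap := by
      rw [Finset.sup_eq_iSup]
    rw [this]
    exact Submodule.fg_finset_sup _ _ fun S _ =>
      (prod_fg fun _ _ => Ls_fg _).mul ((Cc_fg _ _ _).map _)
  have hFmap : ∀ c : K, F.map (evc A c).toLinearMap =
      ⨆ S ∈ E.powerset, Pp j (pert η (ζ 0) μ c) (E \ S) * Cc j ζ (nul K η S) := by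
    intro c
    simp only [F, Submodule.map_iSup]
    refine iSup_congr fun S => iSup_congr fun _ => ?_
    rw [Submodule.map_mul, map_prod_Ls, hκ2]
    simp only [hg, Pp]
  have h0 : F.map (evc A (0 : K)).toLinearMap = W0 j η ζ E := by
    rw [hFmap]
    have : pert η (ζ 0) μ 0 = η := by
      funext e; simp [pert]
    rw [this, W0]
  obtain ⟨c, hc0, hc⟩ := semicont (S := F ^ a) (hFfg.pow a)
  rw [Submodule.map_pow, Submodule.map_pow, h0, hFmap] at hc
  have hzmem : ∀ Q ⊆ E, rk K η Q < Q.card → ζ 0 ∈ sp K (pert η (ζ 0) μ c) Q := by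
    intro Q hQ hr
    obtain ⟨f, hf1, hf2⟩ := hμ Q hQ hr
    exact mem_sp_pert hc0 hf1 hf2
  have hE : ζ 0 ∈ sp K (pert η (ζ 0) μ c) E := by
    apply hzmem E subset_rfl
    have := nul_add_rk (K := K) η E
    omega
  have hE2 : ζ 0 ∉ sp K η E := hG.zeta_notMem (by omega)
  have hk' : nul K (pert η (ζ 0) μ c) E = k := by
    have h1 := rk_pert_eq hE hE2
    have h2 := nul_add_rk (K := K) η E
    unfold nul at *
    omega
  refine ⟨pert η (ζ 0) μ c, fun i => ζ (i + 1), hk', ?_, ?_⟩
  · intro d hd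
    rw [hk'] at hd ⊢
    rw [sp_pert_eq hE] at hd
    exact hG.shift hk d hd
  · refine hc.trans ?_
    apply finrank_le_of_le ((W0_fg _ _ _ _).pow a)
    exact pow_le_pow_left' (family_le j hzmem (fun S => nul_le_nul_pert _ _ _ _ _)) a

end Degen

section Base

variable {K : Type*} [Field K] {A : Type*} [CommRing A] [Algebra K A]

/-- spanned by a finset of size at most `n` -/
def SpCard (S : Submodule K A) (n : ℕ) : Prop := ∃ s : Finset A, s.card ≤ n ∧ span K (s : Set A) = S

lemma SpCard.finrank_le {S : Submodule K A} {n : ℕ} (h : SpCard S n) : finrank K S ≤ n := by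
  obtain ⟨s, hs, rfl⟩ := h
  exact (finrank_span_finset_le_card s).trans hs

lemma SpCard.mul {S T : Submodule K A} {m n : ℕ} (hS : SpCard S m) (hT : SpCard T n) :
    SpCard (S * T) (m * n) := by
  classical
  obtain ⟨s, hs, rfl⟩ := hS
  obtain ⟨t, ht, rfl⟩ := hT
  refine ⟨Finset.image₂ (· * ·) s t, ?_, ?_⟩
  · exact (Finset.card_image₂_le _ _ _).trans (Nat.mul_le_mul hs ht)
  · rw [Submodule.span_mul_span, Finset.coe_image₂]
    rfl

lemma Ls_pow_eq [DecidableEq A] (u : A) (a : ℕ) :
    span K (((Finset.range (a + 1)).image (fun i => u ^ i) : Finset A) : Set A) =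
      (Ls K u) ^ a := by
  induction a with
  | zero => simp [Submodule.one_eq_span]
  | succ a ih =>
    rw [pow_succ', ← ih]
    apply le_antisymm
    · rw [span_le]
      intro x hx
      simp only [Finset.coe_image, Set.mem_image, Finset.coe_range, Set.mem_Iio] at hx
      obtain ⟨i, hi, rfl⟩ := hx
      by_cases h : i < a + 1
      · refine le_Ls_mul u _ (subset_span ?_)
        simp only [Finset.coe_image, Set.mem_image, Finset.coe_range, Set.mem_Iio]
        exact ⟨i, h, rfl⟩
      · have : i = a + 1 := by omega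
        subst this
        rw [SetLike.mem_coe, pow_succ']
        refine Submodule.mul_mem_mul (mem_Ls u) (subset_span ?_)
        simp only [Finset.coe_image, Set.mem_image, Finset.coe_range, Set.mem_Iio]
        exact ⟨a, by omega, rfl⟩
    · intro x hx
      rw [mem_Ls_mul] at hx
      obtain ⟨p, hp, q, hq, rfl⟩ := hx
      refine add_mem ?_ ?_
      · refine span_mono ?_ hp
        intro y hy
        simp only [Finset.coe_image, Set.mem_image, Finset.coe_range, Set.mem_Iio] at hy ⊢
        obtain ⟨i, hi, rfl⟩ := hy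
        exact ⟨i, by omega, rfl⟩
      · refine Submodule.span_induction (p := fun x _ => u * x ∈
          span K (((Finset.range (a + 1 + 1)).image (fun i => u ^ i) : Finset A) : Set A))
          ?_ ?_ ?_ ?_ hq
        · intro y hy
          simp only [Finset.coe_image, Set.mem_image, Finset.coe_range, Set.mem_Iio] at hy
          obtain ⟨i, hi, rfl⟩ := hy
          refine subset_span ?_
          simp only [Finset.coe_image, Set.mem_image, Finset.coe_range, Set.mem_Iio]
          exact ⟨i + 1, by omega, by ring⟩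
        · simp
        · intro x y _ _ hx hy
          rw [mul_add]; exact add_mem hx hy
        · intro a x _ hx
          rw [mul_smul_comm]; exact Submodule.smul_mem _ _ hx

lemma Ls_pow_spCard (u : A) (a : ℕ) : SpCard ((Ls K u) ^ a) (a + 1) := by
  classical
  exact ⟨(Finset.range (a + 1)).image (fun i => u ^ i), by
    simpa using Finset.card_image_le (s := Finset.range (a + 1)) (f := fun i => u ^ i),
    Ls_pow_eq u a⟩

lemma prod_spCard {ι : Type*} [DecidableEq ι] (g : ι → A) (Q : Finset ι) (a : ℕ) :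
    SpCard ((∏ e ∈ Q, Ls K (g e)) ^ a) ((a + 1) ^ Q.card) := by
  induction Q using Finset.induction_on with
  | empty =>
    refine ⟨{1}, by simp, ?_⟩
    rw [Finset.prod_empty, one_pow, Finset.coe_singleton, Submodule.one_eq_span]
  | insert e S he ih =>
    rw [Finset.prod_insert he, mul_pow, Finset.card_insert_of_notMem he, pow_succ']
    exact (Ls_pow_spCard _ _).mul ih

end Base

section UB

variable {K : Type*} [Field K] {U : Type*} [AddCommGroup U] [Module K U] {ι : Type*}
  [DecidableEq ι] {A : Type*} [CommRing A] [Algebra K A]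

lemma W0_of_nul_zero (j : U →ₗ[K] A) {η : ι → U} {ζ : ℕ → U} {E : Finset ι}
    (h : nul K η E = 0) : W0 j η ζ E = Pp j η E := by
  apply le_antisymm _ (Pp_le_W0 j η ζ E)
  refine iSup₂_le fun S hS => ?_
  rw [Finset.mem_powerset] at hS
  have : nul K η S = 0 := by
    have := nul_mono (K := K) η hS
    omega
  rw [this, Cc_zero, mul_one]
  exact Pp_mono j η Finset.sdiff_subset

/-- Upper bound for the powers of `W0`. -/
theorem UB1 [Infinite K] (j : U →ₗ[K] A) (E : Finset ι) (a : ℕ) :
    ∀ (k : ℕ) (η : ι → U) (ζ : ℕ → U), nul K η E = k → Good K η ζ E →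
      finrank K ((W0 j η ζ E) ^ a : Submodule K A) ≤ (a + 1) ^ E.card := by
  intro k
  induction k with
  | zero =>
    intro η ζ h _
    rw [W0_of_nul_zero j h]
    exact (prod_spCard (K := K) (fun e => j (η e)) E a).finrank_le
  | succ k ih =>
    intro η ζ h hG
    obtain ⟨η', ζ', h1, h2, h3⟩ := degen_step j h hG a
    exact h3.trans (ih η' ζ' h1 h2)

end UB

end VolMat
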