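import Pool.Agent.Work.MP_9eee85_co.Main
import Pool.Agent.Work.MP_9eee85_co.Cover

/-!
From a vector configuration to linear systems on a finite extension of a rational function field.
-/

namespace VolMat

open Submodule Module Filter Topology

universe u v

theorem exists_cover' (K : Type u) [Field K] (n N : ℕ) (hN : 0 < N) (h : 0 < n ∨ N = 1) :
    ∃ (L : Type u) (_ : Field L) (_ : Algebra (FractionRing (MvPolynomial (Fin n) K)) L),
      Module.finrank (FractionRing (MvPolynomial (Fin n) K)) L = N := by
  rcases h with h | rfl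
  · exact exists_cover K n h N hN
  · exact ⟨FractionRing (MvPolynomial (Fin n) K), inferInstance, inferInstance,
      Module.finrank_self _⟩

section Conf

variable {K : Type u} [Field K] {V : Type u} [AddCommGroup V] [Module K V] {F : Type v}
  [Fintype F] [DecidableEq F]

/-- the extended configuration -/
def etaE (k : ℕ) (v : F → V) : F → V × (Fin k → K) := fun e => (v e, 0)

/-- the extra vectors -/
def zetaE (K : Type u) [Field K] (V : Type u) [AddCommGroup V] [Module K V] (k : ℕ) :
    ℕ → V × (Fin k → K) := fun j => (0, fun i => if (i : ℕ) = j then 1 else 0)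

lemma sp_etaE (k : ℕ) (v : F → V) (S : Finset F) :
    sp K (etaE (K := K) k v) S = (sp K v S).map (LinearMap.inl K V (Fin k → K)) := by
  rw [sp, sp, Submodule.map_span]
  congr 1
  ext x
  simp [etaE]

lemma rk_etaE (k : ℕ) (v : F → V) (S : Finset F) :
    rk K (etaE (K := K) k v) S = rk K v S := by
  rw [rk, rk, sp_etaE]
  exact finrank_map_of_inj _ LinearMap.inl_injective _

lemma nul_etaE (k : ℕ) (v : F → V) (S : Finset F) :
    nul K (etaE (K := K) k v) S = nul K v S := by
  unfold nul; rw [rk_etaE]

lemma pnat_etaE (k : ℕ) (v : F → V) (S : Finset F) (w0 : ℕ) (w : F → ℕ) :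
    pnat K (etaE (K := K) k v) S w0 w = pnat K v S w0 w := by
  unfold pnat
  simp only [rk_etaE]

lemma good_etaE (v : F → V) :
    Good K (etaE (K := K) (nul K v Finset.univ) v) (zetaE K V (nul K v Finset.univ))
      Finset.univ := by
  intro c hc i hi
  rw [nul_etaE] at hc hi
  rw [sp_etaE] at hc
  obtain ⟨y, -, hy⟩ := hc
  have h2 := congrArg (fun p => p.2 ⟨i, hi⟩) hy
  simp only [LinearMap.inl_apply, Pi.zero_apply, Prod.snd_sum, Finset.sum_apply, zetaE,
    Prod.smul_snd, Pi.smul_apply, smul_eq_mul, mul_ite, mul_one, mul_zero] at h2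
  rw [Finset.sum_ite_eq] at h2
  simp only [Finset.mem_range, hi, if_true] at h2
  exact h2.symm

lemma finrank_U (v : F → V) (hv : span K (Set.range v) = ⊤) :
    finrank K (V × (Fin (nul K v Finset.univ) → K)) = Fintype.card F := by
  have hfin : Module.Finite K V := ⟨by rw [← hv]; exact Submodule.fg_span (Set.finite_range v)⟩
  rw [Module.finrank_prod, Module.finrank_fin_fun]
  have h1 : rk K v Finset.univ = finrank K V := by
    rw [rk, sp, Finset.coe_univ, Set.image_univ, hv, finrank_top]
  have h2 := nul_add_rk (K := K) v Finset.univ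
  rw [Finset.card_univ] at h2
  omega

omit [Fintype F] [DecidableEq F] in
lemma zetaE_sum (k : ℕ) (y : Fin k → K) :
    ((0, y) : V × (Fin k → K)) = ∑ i : Fin k, y i • zetaE K V k i := by
  ext i
  · rw [Prod.fst_sum]
    simp [zetaE]
  · rw [Prod.snd_sum, Finset.sum_apply]
    simp only [zetaE, Prod.smul_snd, Pi.smul_apply, smul_eq_mul, mul_ite, mul_one, mul_zero,
      Fin.val_inj]
    rw [Finset.sum_ite_eq]
    simp

end Conf

/-- The linear systems attached to a vector configuration. -/
theorem exists_linear_systems {K : Type u} [Field K] [Infinite K] {F : Type v} [Fintype F]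
    [DecidableEq F] {V : Type u} [AddCommGroup V] [Module K V] (v : F → V)
    (hv : span K (Set.range v) = ⊤) :
    ∃ (L : Type u) (_ : Field L) (_ : Algebra K L)
      (_ : Algebra (FractionRing (MvPolynomial (Fin (Fintype.card F)) K)) L)
      (_ : IsScalarTower K (FractionRing (MvPolynomial (Fin (Fintype.card F)) K)) L)
      (_ : FiniteDimensional (FractionRing (MvPolynomial (Fin (Fintype.card F)) K)) L)
      (W : Option F → Submodule K L) (b : ℕ),
      0 < b ∧ (∀ i, (W i).FG ∧ (1 : L) ∈ W i) ∧
      FiniteDimensional (IntermediateField.adjoin K (⋃ i, (W i : Set L))) L ∧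
      ∀ w : Option F → ℕ, (∀ i, 0 < w i) →
        Tendsto (fun m : ℕ => (((Fintype.card F).factorial *
          finrank (IntermediateField.adjoin K (⋃ i, (W i : Set L))) L *
          finrank K (∏ i, (W i) ^ (m * w i) : Submodule K L) : ℕ) : ℝ) /
            ((b * m : ℕ) : ℝ) ^ (Fintype.card F)) atTop
          (𝓝 (pnat K v Finset.univ (w none) (fun e => w (some e)) : ℝ)) := by
  classical
  set n := Fintype.card F with hn
  have hfin : Module.Finite K V := ⟨by rw [← hv]; exact Submodule.fg_span (Set.finite_range v)⟩
  let k := nul K v Finset.univ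
  let U := V × (Fin k → K)
  let η : F → U := etaE (K := K) k v
  let ζ : ℕ → U := zetaE K V k
  have hG : Good K η ζ Finset.univ := good_etaE v
  have hU : finrank K U = n := finrank_U v hv
  let bas : Basis (Fin n) K U := Module.finBasisOfFinrankEq K U hU
  let R := MvPolynomial (Fin n) K
  let L0 := FractionRing R
  have hNpos : 0 < (n.factorial) ^ (n - 1) := pow_pos (Nat.factorial_pos n) _
  obtain ⟨L, hL, hA, hrank⟩ := exists_cover' K n ((n.factorial) ^ (n - 1)) hNpos (by
    rcases Nat.eq_zero_or_pos n with h | h
    · right; rw [h]; simp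
    · left; exact h)
  let hKL : Algebra K L := ((algebraMap L0 L).comp (algebraMap K L0)).toAlgebra
  have hT : IsScalarTower K L0 L := IsScalarTower.of_algebraMap_eq (fun x => rfl)
  have hFD : FiniteDimensional L0 L := Module.finite_of_finrank_pos (by rw [hrank]; exact hNpos)
  let e : SymmetricAlgebra K U ≃ₐ[K] R := SymmetricAlgebra.equivMvPolynomial bas
  let ψ : SymmetricAlgebra K U →ₐ[K] L :=
    (IsScalarTower.toAlgHom K L0 L).comp ((IsScalarTower.toAlgHom K R L0).comp e.toAlgHom)
  have hψ : Function.Injective ψ := by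
    intro x y hxy
    have h1 : algebraMap L0 L (algebraMap R L0 (e x)) = algebraMap L0 L (algebraMap R L0 (e y)) :=
      hxy
    exact e.injective (IsFractionRing.injective R L0 ((algebraMap L0 L).injective h1))
  let W : Option F → Submodule K L := fun i => match i with
    | none => (W0 (SymmetricAlgebra.ι K U) η ζ Finset.univ).map ψ.toLinearMap
    | some e => (Ls K (SymmetricAlgebra.ι K U (η e))).map ψ.toLinearMap
  have hWprod : ∀ (w : Option F → ℕ) (m : ℕ), (∏ i, (W i) ^ (m * w i) : Submodule K L) =
      ((RR (K := K) η ζ Finset.univ (w none) (fun e => w (some e))) ^ m).map ψ.toLinearMap := by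
    intro w m
    rw [Fintype.prod_option, ← RR_smul, RR]
    change _ = Submodule.mapHom ψ _
    rw [map_mul, map_pow, map_prod]
    simp only [map_pow]
    rfl
  have hW1 : ∀ i, (1 : L) ∈ W i := by
    intro i
    cases i with
    | none => exact ⟨1, one_mem_W0 _ _ _ _, map_one ψ⟩
    | some e => exact ⟨1, one_mem_Ls _, map_one ψ⟩
  have hWfg : ∀ i, (W i).FG := by
    intro i
    cases i with
    | none => exact (W0_fg _ _ _ _).map _
    | some e => exact (Ls_fg _).map _
  -- the linear forms lie in `W none`
  have hlin : ∀ x : U, SymmetricAlgebra.ι K U x ∈ W0 (SymmetricAlgebra.ι K U) η ζ Finset.univ := by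
    intro x
    have hx : x = ((x.1, 0) : V × (Fin k → K)) + (0, x.2) :=
      Prod.ext (by rw [Prod.fst_add]; simp) (by rw [Prod.snd_add]; simp)
    rw [hx, map_add]
    refine add_mem ?_ ?_
    · have h1 : x.1 ∈ span K (Set.range v) := by rw [hv]; trivial
      refine Submodule.span_induction (p := fun y _ => SymmetricAlgebra.ι K U (y, 0) ∈
        W0 (SymmetricAlgebra.ι K U) η ζ Finset.univ) ?_ ?_ ?_ ?_ h1
      · rintro _ ⟨s, rfl⟩
        exact Ls_le_W0 _ η ζ (Finset.mem_univ s) (mem_Ls _)
      · have : ((0 : V), (0 : Fin k → K)) = (0 : U) := rfl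
        rw [this, map_zero]; exact zero_mem _
      · intro y z _ _ hy hz
        have : ((y + z : V), (0 : Fin k → K)) = ((y, 0) : U) + (z, 0) := by simp
        rw [this, map_add]; exact add_mem hy hz
      · intro a y _ hy
        have : ((a • y : V), (0 : Fin k → K)) = a • ((y, 0) : U) := by simp
        rw [this, map_smul]; exact Submodule.smul_mem _ _ hy
    · have h2 : ((0, x.2) : V × (Fin k → K)) = ∑ i : Fin k, x.2 i • ζ i := zetaE_sum k x.2
      rw [h2, map_sum]
      refine sum_mem fun i _ => ?_
      rw [map_smul]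
      refine Submodule.smul_mem _ _ (Cc_le_W0 _ η ζ Finset.univ ?_)
      refine subset_span ⟨i, 1, ?_, by simp⟩
      have h3 : nul K η Finset.univ = k := nul_etaE _ _ _
      rw [h3]
      exact i.2
  -- the generated field
  have hadj : IntermediateField.adjoin K (⋃ i, (W i : Set L)) =
      (IsScalarTower.toAlgHom K L0 L).fieldRange := by
    apply le_antisymm
    · rw [IntermediateField.adjoin_le_iff]
      intro x hx
      rw [Set.mem_iUnion] at hx
      obtain ⟨i, hi⟩ := hx
      have : ∃ y, x = ψ y := by
        cases i with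
        | none => obtain ⟨y, _, rfl⟩ := hi; exact ⟨y, rfl⟩
        | some s => obtain ⟨y, _, rfl⟩ := hi; exact ⟨y, rfl⟩
      obtain ⟨y, rfl⟩ := this
      exact ⟨algebraMap R L0 (e y), rfl⟩
    · rintro _ ⟨x, rfl⟩
      have hpoly : ∀ a : R, algebraMap L0 L (algebraMap R L0 a) ∈
          IntermediateField.adjoin K (⋃ i, (W i : Set L)) := by
        intro a
        induction a using MvPolynomial.induction_on with
        | C a =>
          have : algebraMap L0 L (algebraMap R L0 (MvPolynomial.C a)) = algebraMap K L a := by
            rw [IsScalarTower.algebraMap_apply K L0 L, IsScalarTower.algebraMap_apply K R L0]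
            rfl
          rw [this]
          exact IntermediateField.algebraMap_mem _ _
        | add p q hp hq => rw [map_add, map_add]; exact add_mem hp hq
        | mul_X p i hp =>
          rw [map_mul, map_mul]
          refine mul_mem hp (IntermediateField.subset_adjoin _ _ ?_)
          rw [Set.mem_iUnion]
          refine ⟨none, SymmetricAlgebra.ι K U (bas i), hlin _, ?_⟩
          change algebraMap L0 L (algebraMap R L0 (e (SymmetricAlgebra.ι K U (bas i)))) = _
          rw [SymmetricAlgebra.equivMvPolynomial_ι_apply]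
      obtain ⟨a, c, hc, rfl⟩ := IsFractionRing.div_surjective (A := R) x
      change algebraMap L0 L (algebraMap R L0 a / algebraMap R L0 c) ∈ _
      rw [map_div₀]
      exact div_mem (hpoly a) (hpoly c)
  have hrk2 : finrank (IntermediateField.adjoin K (⋃ i, (W i : Set L))) L =
      (n.factorial) ^ (n - 1) := by
    rw [hadj, ← hrank]
    symm
    exact Algebra.finrank_eq_of_equiv_equiv
      ((IsScalarTower.toAlgHom K L0 L).equivFieldRange).toRingEquiv (RingEquiv.refl L) (by
        ext x; rfl)
  refine ⟨L, hL, hKL, hA, hT, hFD, W, n.factorial, Nat.factorial_pos n,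
    fun i => ⟨hWfg i, hW1 i⟩, Module.finite_of_finrank_pos (by rw [hrk2]; exact hNpos), ?_⟩
  intro w hw
  have hmain := main_asymp (K := K) n U η ζ Finset.univ Finset.card_univ hG (w none) (hw none)
    (fun e => w (some e))
  rw [pnat_etaE, Finset.card_univ, ← hn] at hmain
  refine hmain.congr' ?_
  filter_upwards [eventually_gt_atTop 0] with m hm
  rw [hWprod, hrk2, finrank_map_of_inj ψ.toLinearMap hψ]
  have hfac : n.factorial * n.factorial ^ (n - 1) = n.factorial ^ n := by
    rcases Nat.eq_zero_or_pos n with h | h
    · rw [h]; simp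
    · rw [← pow_succ']
      congr 1
      omega
  rw [hfac]
  have h1 : ((n.factorial : ℕ) : ℝ) ≠ 0 := by positivity
  have h2 : (m : ℝ) ≠ 0 := by positivity
  push_cast
  rw [mul_pow]
  field_simp

end VolMat
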