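import Pool.Agent.Work.MP_9eee85_co.Sat

/-!
Growth of `W^N Q` in a polynomial ring, for translation invariant `Q`.
-/

namespace VolMat

open Submodule Module Polynomial

section Growth

variable {K : Type*} [Field K] {B : Type*} [CommRing B] [Algebra K B]

/-- evaluation at `0` -/
noncomputable def ev0 (K : Type*) [Field K] (B : Type*) [CommRing B] [Algebra K B] :
    B[X] →ₐ[K] B :=
  (Polynomial.aeval (0 : B) : B[X] →ₐ[B] B).restrictScalars K

lemma ev0_apply (F : B[X]) : ev0 K B F = F.coeff 0 := by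
  simp [ev0, Polynomial.coeff_zero_eq_eval_zero]

lemma ev0_X : ev0 K B X = 0 := by simp [ev0_apply]

lemma coeff_mem_of_eval_mem [Infinite K] (V : Submodule K B) (F : B[X])
    (h : ∀ c : K, F.eval (algebraMap K B c) ∈ V) (j : ℕ) : F.coeff j ∈ V := by
  by_contra hj
  obtain ⟨f, hf, hV⟩ := Submodule.exists_le_ker_of_notMem hj
  let p : K[X] := ∑ i ∈ Finset.range (F.natDegree + 1), Polynomial.C (f (F.coeff i)) * X ^ i
  have hp : ∀ c, p.eval c = 0 := by
    intro c
    have h1 : f (F.eval (algebraMap K B c)) = 0 := by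
      have := hV (h c)
      simpa using this
    rw [Polynomial.eval_eq_sum_range, map_sum] at h1
    simp only [p, Polynomial.eval_finsetSum, Polynomial.eval_mul, Polynomial.eval_C,
      Polynomial.eval_pow, Polynomial.eval_X]
    rw [← h1]
    refine Finset.sum_congr rfl fun i _ => ?_
    rw [← map_pow, mul_comm (F.coeff i), ← Algebra.smul_def, map_smul, smul_eq_mul, mul_comm]
  have hp0 : p = 0 := Polynomial.funext (by simpa using hp)
  have hc : p.coeff j = f (F.coeff j) := by
    simp only [p, Polynomial.finsetSum_coeff, Polynomial.coeff_C_mul, Polynomial.coeff_X_pow,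
      mul_ite, mul_one, mul_zero]
    rw [Finset.sum_ite_eq]
    split_ifs with hj2
    · rfl
    · rw [Finset.mem_range, not_lt] at hj2
      rw [Polynomial.coeff_eq_zero_of_natDegree_lt (by omega), map_zero]
  rw [hp0] at hc
  exact hf (by rw [← hc]; simp)

/-- polynomials with coefficients in `V` and degree at most `M` -/
def coefSub (V : Submodule K B) (M : ℕ) : Submodule K B[X] where
  carrier := {F | (∀ j, F.coeff j ∈ V) ∧ F.natDegree ≤ M}
  add_mem' := by
    rintro a b ⟨ha, ha'⟩ ⟨hb, hb'⟩
    exact ⟨fun j => by rw [coeff_add]; exact add_mem (ha j) (hb j),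
      (natDegree_add_le _ _).trans (max_le ha' hb')⟩
  zero_mem' := ⟨fun j => by simp, by simp⟩
  smul_mem' := by
    rintro c a ⟨ha, ha'⟩
    refine ⟨fun j => by rw [coeff_smul]; exact V.smul_mem _ (ha j), ?_⟩
    exact (natDegree_smul_le _ _).trans ha'

lemma mem_coefSub {V : Submodule K B} {M : ℕ} {F : B[X]} :
    F ∈ coefSub V M ↔ (∀ j, F.coeff j ∈ V) ∧ F.natDegree ≤ M := Iff.rfl

lemma coefSub_finrank {V : Submodule K B} (hV : V.FG) (M : ℕ) {S : Submodule K B[X]}
    (hS : S ≤ coefSub V M) : finrank K S ≤ (M + 1) * finrank K V := by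
  have : Module.Finite K V := Module.Finite.iff_fg.mpr hV
  let f : S →ₗ[K] (Fin (M + 1) → V) :=
    { toFun := fun F i => ⟨(F : B[X]).coeff i, (hS F.2).1 i⟩
      map_add' := by intro a b; ext i; simp
      map_smul' := by intro a b; ext i; simp }
  have hf : Function.Injective f := by
    rw [injective_iff_map_eq_zero]
    intro F hF
    ext j
    by_cases hj : j < M + 1
    · have := congrArg (fun g => (g ⟨j, hj⟩ : B)) hF
      simpa [f] using this
    · rw [Polynomial.coeff_eq_zero_of_natDegree_lt (lt_of_le_of_lt (hS F.2).2 (by omega))]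
      simp
  have h := LinearMap.finrank_le_finrank_of_injective hf
  rw [Module.finrank_pi_fintype] at h
  simpa using h

lemma Ls_X_mul_le {V : Submodule K B} {M : ℕ} {S : Submodule K B[X]}
    (hS : S ≤ coefSub V M) : Ls K (X : B[X]) * S ≤ coefSub V (M + 1) := by
  intro x hx
  rw [mem_Ls_mul] at hx
  obtain ⟨a, ha, b, hb, rfl⟩ := hx
  have ha' := hS ha
  have hb' := hS hb
  refine add_mem ⟨ha'.1, ha'.2.trans (by omega)⟩ ⟨?_, ?_⟩
  · intro j
    cases j with
    | zero => simp
    | succ j => rw [Polynomial.coeff_X_mul]; exact hb'.1 j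
  · refine (Polynomial.natDegree_mul_le).trans ?_
    have := Polynomial.natDegree_X_le (R := B)
    have h2 := hb'.2
    omega

lemma Ls_X_pow_mul_le {V : Submodule K B} {M : ℕ} {S : Submodule K B[X]}
    (hS : S ≤ coefSub V M) (N : ℕ) : (Ls K (X : B[X])) ^ N * S ≤ coefSub V (M + N) := by
  induction N with
  | zero => simpa using hS
  | succ N ih =>
    rw [pow_succ', mul_assoc]
    exact Ls_X_mul_le ih

/-- translation invariance -/
def TInv (Q : Submodule K B[X]) : Prop :=
  ∀ c : K, ∀ F ∈ Q, F.comp (X + C (algebraMap K B c)) ∈ Q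

lemma exists_kerProp_X [Infinite K] {Q : Submodule K B[X]} (hQ : Q.FG) (hT : TInv Q) :
    ∃ N, KerProp (ev0 K B) X Q N := by
  set V := Q.map (ev0 K B).toLinearMap with hV
  have hVfg : V.FG := hQ.map _
  obtain ⟨D, hD⟩ : ∃ D, Q ≤ coefSub V D := by
    obtain ⟨s, hs⟩ := hQ
    refine ⟨s.sup fun F => F.natDegree, ?_⟩
    rw [← hs, span_le]
    intro F hF
    refine ⟨?_, Finset.le_sup (f := fun F : B[X] => F.natDegree) hF⟩
    refine coeff_mem_of_eval_mem V F ?_
    intro c
    refine ⟨F.comp (X + C (algebraMap K B c)), ?_, ?_⟩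
    · exact hT c F (by rw [← hs]; exact subset_span hF)
    · simp [ev0_apply, Polynomial.coeff_zero_eq_eval_zero]
  have hreg : ∀ a : B[X], X * a = 0 → a = 0 := by
    intro a ha
    ext j
    have := congrArg (fun p => p.coeff (j + 1)) ha
    simpa [Polynomial.coeff_X_mul] using this
  -- dimension growth
  obtain ⟨N, hN⟩ : ∃ N, finrank K ((Ls K (X : B[X])) ^ (N + 1) * Q : Submodule K B[X]) ≤
      finrank K ((Ls K (X : B[X])) ^ N * Q : Submodule K B[X]) + finrank K V := by
    by_contra hcon
    push Not at hcon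
    have hgr : ∀ N, N * (finrank K V + 1) ≤
        finrank K ((Ls K (X : B[X])) ^ N * Q : Submodule K B[X]) := by
      intro N
      induction N with
      | zero => simp
      | succ N ih =>
        have := hcon N
        rw [add_mul]
        omega
    have h1 := hgr ((D + 1) * finrank K V + 1)
    have h2 := coefSub_finrank hVfg _ (Ls_X_pow_mul_le hD ((D + 1) * finrank K V + 1))
    have h3 := h1.trans h2
    nlinarith
  refine ⟨N, ?_⟩
  have hTfg : ((Ls K (X : B[X])) ^ (N + 1) * Q).FG := ((Ls_fg _).pow _).mul hQ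
  have hTfg' : ((Ls K (X : B[X])) ^ N * Q).FG := ((Ls_fg _).pow _).mul hQ
  have h1 := finrank_eq_map_add_ker hTfg (ev0 K B).toLinearMap
  rw [map_Ls_pow_mul_cut _ ev0_X, ← hV] at h1
  set T := (Ls K (X : B[X])) ^ (N + 1) * Q with hTdef
  set T' := (Ls K (X : B[X])) ^ N * Q with hTdef'
  have hle : T'.map (LinearMap.mulLeft K X) ≤ T ⊓ LinearMap.ker (ev0 K B).toLinearMap := by
    apply le_inf
    · rw [hTdef, pow_succ', mul_assoc]
      exact mulLeft_map_le _ _
    · rintro _ ⟨x, hx, rfl⟩
      simp [ev0_apply]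
  have hfin : Module.Finite K (T ⊓ LinearMap.ker (ev0 K B).toLinearMap : Submodule K B[X]) :=
    Module.Finite.iff_fg.mpr (FG_of_le hTfg inf_le_left)
  have heq : T'.map (LinearMap.mulLeft K X) = T ⊓ LinearMap.ker (ev0 K B).toLinearMap := by
    apply Submodule.eq_of_le_of_finrank_le hle
    rw [finrank_map_of_reg (LinearMap.mulLeft K (X : B[X])) (by simpa using hreg) T']
    omega
  intro x hx hφ
  have : x ∈ T ⊓ LinearMap.ker (ev0 K B).toLinearMap := ⟨hx, by simpa using hφ⟩
  rw [← heq] at this
  obtain ⟨y, hy, rfl⟩ := this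
  exact ⟨y, hy, rfl⟩

end Growth

end VolMat
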