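import Pool.Agent.Work.MP_9eee85_co.Contract

/-!
Asymptotic dimension of the products: the main induction.
-/

namespace VolMat

open Submodule Module Filter Topology

universe u v

section Defs

variable {K : Type v} [Field K] {ι : Type*} [DecidableEq ι]

/-- the product space `R(w0, w)` -/
noncomputable def RR {U : Type*} [AddCommGroup U] [Module K U] (η : ι → U) (ζ : ℕ → U)
    (E : Finset ι) (w0 : ℕ) (w : ι → ℕ) : Submodule K (SymmetricAlgebra K U) :=
  (W0 (SymmetricAlgebra.ι K U) η ζ E) ^ w0 *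
    ∏ e ∈ E, (Ls K (SymmetricAlgebra.ι K U (η e))) ^ (w e)

/-- the polynomial -/
noncomputable def pnat (K : Type v) [Field K] {U : Type*} [AddCommGroup U] [Module K U]
    (η : ι → U) (E : Finset ι) (w0 : ℕ) (w : ι → ℕ) : ℕ :=
  ∑ T ∈ E.powerset, if rk K η T = T.card then w0 ^ (E.card - T.card) * ∏ e ∈ T, w e else 0

variable {U : Type*} [AddCommGroup U] [Module K U] (η : ι → U) (ζ : ℕ → U) (E : Finset ι)

lemma RR_fg (w0 : ℕ) (w : ι → ℕ) : (RR (K := K) η ζ E w0 w).FG :=
  ((W0_fg _ _ _ _).pow _).mul (prod_fg fun _ _ => (Ls_fg _).pow _)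

lemma RR_inv (w0 : ℕ) (w : ι → ℕ) : Inv (RR (K := K) η ζ E w0 w) :=
  ((Inv_W0 _ _ _).pow _).mul (Inv.prod fun e _ => (Inv_Ls (η e)).pow _)

lemma one_mem_pow {A : Type*} [CommRing A] [Algebra K A] {S : Submodule K A} (h : (1 : A) ∈ S)
    (n : ℕ) : (1 : A) ∈ S ^ n :=
  Submodule.one_le.mp (one_le_pow_of_one_le' (Submodule.one_le.mpr h) n)

lemma one_mem_RR (w0 : ℕ) (w : ι → ℕ) : (1 : SymmetricAlgebra K U) ∈ RR (K := K) η ζ E w0 w := by
  have := Submodule.mul_mem_mul (one_mem_pow (one_mem_W0 (SymmetricAlgebra.ι K U) η ζ E) w0)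
    (one_mem_prod (S := E) (f := fun e => (Ls K (SymmetricAlgebra.ι K U (η e))) ^ (w e))
      fun e _ => one_mem_pow (one_mem_Ls _) _)
  simpa [RR] using this

lemma RR_smul (w0 : ℕ) (w : ι → ℕ) (m : ℕ) :
    RR (K := K) η ζ E (m * w0) (fun e => m * w e) = (RR (K := K) η ζ E w0 w) ^ m := by
  simp only [RR, mul_pow, ← Finset.prod_pow, ← pow_mul]
  simp only [mul_comm]

lemma RR_update {f : ι} (hf : f ∈ E) (w0 : ℕ) (w : ι → ℕ) :
    RR (K := K) η ζ E w0 w = (Ls K (SymmetricAlgebra.ι K U (η f))) ^ (w f) *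
      RR (K := K) η ζ E w0 (Function.update w f 0) := by
  simp only [RR]
  rw [← Finset.mul_prod_erase E _ hf, ← Finset.mul_prod_erase E
    (fun e => (Ls K (SymmetricAlgebra.ι K U (η e))) ^ (Function.update w f 0 e)) hf]
  have h1 : ∏ e ∈ E.erase f, (Ls K (SymmetricAlgebra.ι K U (η e))) ^ (Function.update w f 0 e) =
      ∏ e ∈ E.erase f, (Ls K (SymmetricAlgebra.ι K U (η e))) ^ (w e) := by
    refine Finset.prod_congr rfl fun e he => ?_
    rw [Function.update_of_ne (Finset.ne_of_mem_erase he)]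
  rw [h1, Function.update_self, pow_zero, one_mul]
  ring

lemma map_cut_RR {f : ι} (hf0 : η f ≠ 0) (hf : f ∈ E) (w0 : ℕ) {w : ι → ℕ} (hw : w f = 0) :
    (RR (K := K) η ζ E w0 w).map (cut (K := K) (η f)).toLinearMap =
      RR (K := K) (qc (η f) η) (qc (η f) ζ) (E.erase f) w0 w := by
  have hprod : ∀ S : Finset ι,
      (∏ e ∈ S, (Ls K (SymmetricAlgebra.ι K U (η e))) ^ (w e)).map
        (cut (K := K) (η f)).toLinearMap =
      ∏ e ∈ S, (Ls K (SymmetricAlgebra.ι K (Quo K (η f)) (qc (η f) η e))) ^ (w e) := by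
    intro S
    induction S using Finset.induction_on with
    | empty => simp only [Finset.prod_empty]; exact Submodule.map_one (cut (K := K) (η f))
    | insert a S ha ih =>
      rw [Finset.prod_insert ha, Finset.prod_insert ha, Submodule.map_mul, ih, Submodule.map_pow,
        map_Ls, cut_ι]
      rfl
  rw [RR, RR, Submodule.map_mul, Submodule.map_pow, map_cut_W0_contract ζ hf0 hf, hprod]
  congr 1
  rw [← Finset.mul_prod_erase E _ hf, hw, pow_zero, one_mul]

/-- recursion for the polynomial -/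
lemma pnat_contract {f : ι} (hf0 : η f ≠ 0) (hf : f ∈ E) (w0 : ℕ) (w : ι → ℕ) :
    pnat K η E w0 w = pnat K η E w0 (Function.update w f 0) +
      w f * pnat K (qc (K := K) (η f) η) (E.erase f) w0 (Function.update w f 0) := by
  have hE : E = insert f (E.erase f) := (Finset.insert_erase hf).symm
  have hfn : f ∉ E.erase f := Finset.notMem_erase f E
  have hcard : (E.erase f).card + 1 = E.card := Finset.card_erase_add_one hf
  unfold pnat
  conv_lhs => rw [hE]
  conv_rhs => rw [hE]
  rw [Finset.sum_powerset_insert hfn, Finset.sum_powerset_insert hfn, Finset.erase_insert hfn,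
    Finset.card_insert_of_notMem hfn, add_assoc]
  congr 1
  · refine Finset.sum_congr rfl fun T hT => ?_
    rw [Finset.mem_powerset] at hT
    split_ifs with h
    · congr 1
      refine Finset.prod_congr rfl fun e he => ?_
      rw [Function.update_of_ne]
      intro hef
      exact hfn (hT (hef ▸ he))
    · rfl
  · have h0 : ∑ t ∈ (E.erase f).powerset, (if rk K η (insert f t) = (insert f t).card then
        w0 ^ ((E.erase f).card + 1 - (insert f t).card) *
          ∏ e ∈ insert f t, Function.update w f 0 e else 0) = 0 := by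
      refine Finset.sum_eq_zero fun T hT => ?_
      rw [Finset.mem_powerset] at hT
      have hfT : f ∉ T := fun h => hfn (hT h)
      rw [Finset.prod_insert hfT, Function.update_self]
      simp
    rw [h0, zero_add, Finset.mul_sum]
    refine Finset.sum_congr rfl fun T hT => ?_
    rw [Finset.mem_powerset] at hT
    have hfT : f ∉ T := fun h => hfn (hT h)
    have hrk := rk_contract (K := K) hf0 T
    have hc := Finset.card_insert_of_notMem hfT
    have hiff : rk K η (insert f T) = (insert f T).card ↔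
        rk K (qc (K := K) (η f) η) T = T.card := by omega
    simp only [hiff]
    split_ifs with h
    · rw [Finset.prod_insert hfT, hc]
      have h1 : ∏ e ∈ T, Function.update w f 0 e = ∏ e ∈ T, w e := by
        refine Finset.prod_congr rfl fun e he => ?_
        rw [Function.update_of_ne]
        intro hef
        exact hfT (hef ▸ he)
      have h2 : (E.erase f).card + 1 - (T.card + 1) = (E.erase f).card - T.card := by omega
      rw [h1, h2]
      ring
    · simp

lemma pnat_loop {f : ι} (hf0 : η f = 0) (w0 : ℕ) (w : ι → ℕ) :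
    pnat K η E w0 w = pnat K η E w0 (Function.update w f 0) := by
  unfold pnat
  refine Finset.sum_congr rfl fun T hT => ?_
  split_ifs with h
  · congr 1
    refine Finset.prod_congr rfl fun e he => ?_
    rw [Function.update_of_ne]
    rintro rfl
    have h1 := rk_of_zero (K := K) hf0 (T.erase e)
    rw [Finset.insert_erase he] at h1
    have h2 := rk_le_card (K := K) η (T.erase e)
    have h3 := Finset.card_erase_add_one he
    omega
  · rfl

lemma pnat_zero (w0 : ℕ) {w : ι → ℕ} (hw : ∀ e ∈ E, w e = 0) : pnat K η E w0 w = w0 ^ E.card := by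
  unfold pnat
  rw [Finset.sum_eq_single_of_mem ∅ (Finset.empty_mem_powerset E)]
  · have : rk K η ∅ = 0 := by
      have := rk_le_card (K := K) η ∅
      simpa using this
    simp [this]
  · intro T hT hne
    rw [Finset.mem_powerset] at hT
    obtain ⟨e, he⟩ := Finset.nonempty_iff_ne_empty.mpr hne
    split_ifs with h
    · rw [Finset.prod_eq_zero he (hw e (hT he)), mul_zero]
    · rfl

end Defs

section Bounds

variable {K : Type v} [Field K] {A B : Type*} [CommRing A] [Algebra K A] [CommRing B] [Algebra K B]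

lemma LBpow (φ : A →ₐ[K] B) {u : A} (hu : φ u = 0) (hreg : ∀ a, u * a = 0 → a = 0)
    {S : Submodule K A} (hS : S.FG) (i : ℕ) :
    finrank K S + i * finrank K (S.map φ.toLinearMap) ≤
      finrank K ((Ls K u) ^ i * S : Submodule K A) := by
  induction i with
  | zero => rw [pow_zero, one_mul]; simp
  | succ i ih =>
    have h := LB1 φ hu hreg (((Ls_fg u).pow i).mul hS)
    rw [map_Ls_pow_mul_cut φ hu] at h
    rw [pow_succ', mul_assoc, add_mul]
    omega

lemma UBpow (φ : A →ₐ[K] B) {u : A} (hu : φ u = 0)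
    {S : Submodule K A} (hS : S.FG) {N : ℕ} (hN : KerProp φ u S N) (i : ℕ) :
    finrank K ((Ls K u) ^ (N + i) * S : Submodule K A) ≤
      finrank K ((Ls K u) ^ N * S : Submodule K A) + i * finrank K (S.map φ.toLinearMap) := by
  induction i with
  | zero => simp
  | succ i ih =>
    have h := UBcut φ (u := u) (((Ls_fg u).pow (N + i)).mul hS)
      (((Ls_fg u).pow (N + i + 1)).mul hS) (hN.mono hu (Nat.le_add_right N i))
    rw [map_Ls_pow_mul_cut φ hu] at h
    rw [add_mul, ← add_assoc N i 1]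
    omega

lemma pow_mul_mono_exp {u : A} {S : Submodule K A} (hS : S.FG) (i k : ℕ) :
    finrank K ((Ls K u) ^ i * S : Submodule K A) ≤
      finrank K ((Ls K u) ^ (k + i) * S : Submodule K A) := by
  apply finrank_le_of_le (((Ls_fg u).pow (k + i)).mul hS)
  rw [pow_add, mul_assoc]
  exact le_mul_of_one_mem_left (one_mem_pow (one_mem_Ls u) k)

end Bounds

section Limits

lemma tendsto_base_upper (w0 n : ℕ) :
    Tendsto (fun m : ℕ => (((m * w0 + 1) ^ n : ℕ) : ℝ) / (m : ℝ) ^ n) atTop (𝓝 ((w0 : ℝ) ^ n)) := by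
  have h1 : Tendsto (fun m : ℕ => (w0 : ℝ) + 1 / (m : ℝ)) atTop (𝓝 ((w0 : ℝ) + 0)) :=
    tendsto_const_nhds.add tendsto_one_div_atTop_nhds_zero_nat
  have h2 := h1.pow n
  rw [add_zero] at h2
  refine h2.congr' ?_
  filter_upwards [eventually_gt_atTop 0] with m hm
  have hm' : (m : ℝ) ≠ 0 := by positivity
  push_cast
  rw [← div_pow]
  congr 1
  field_simp

lemma tendsto_base_lower (w0 n : ℕ) :
    Tendsto (fun m : ℕ => ((m * w0 : ℝ) - n) ^ n / (m : ℝ) ^ n) atTop (𝓝 ((w0 : ℝ) ^ n)) := by
  have h1 : Tendsto (fun m : ℕ => (w0 : ℝ) - n * (1 / (m : ℝ))) atTop (𝓝 ((w0 : ℝ) - n * 0)) :=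
    tendsto_const_nhds.sub (tendsto_one_div_atTop_nhds_zero_nat.const_mul _)
  have h2 := h1.pow n
  rw [mul_zero, sub_zero] at h2
  refine h2.congr' ?_
  filter_upwards [eventually_gt_atTop 0] with m hm
  have hm' : (m : ℝ) ≠ 0 := by positivity
  rw [← div_pow]
  congr 1
  field_simp

lemma tendsto_shift {D : ℕ → ℝ} {n N : ℕ} {L : ℝ}
    (h : Tendsto (fun m : ℕ => D m / (m : ℝ) ^ n) atTop (𝓝 L)) :
    Tendsto (fun m : ℕ => D (m + N) / (m : ℝ) ^ n) atTop (𝓝 L) := by
  have h1 : Tendsto (fun m : ℕ => D (m + N) / ((m + N : ℕ) : ℝ) ^ n) atTop (𝓝 L) :=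
    h.comp (tendsto_add_atTop_nat N)
  have h2 : Tendsto (fun m : ℕ => (1 + N * (1 / (m : ℝ))) ^ n) atTop (𝓝 ((1 + (N : ℝ) * 0) ^ n)) :=
    (tendsto_const_nhds.add (tendsto_one_div_atTop_nhds_zero_nat.const_mul _)).pow n
  rw [mul_zero, add_zero, one_pow] at h2
  have h3 := h1.mul h2
  rw [mul_one] at h3
  refine h3.congr' ?_
  filter_upwards [eventually_gt_atTop 0] with m hm
  have hm' : (m : ℝ) ≠ 0 := by positivity
  have hm2 : ((m + N : ℕ) : ℝ) ≠ 0 := by positivity
  have : (1 + N * (1 / (m : ℝ))) = ((m + N : ℕ) : ℝ) / m := by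
    push_cast
    field_simp
  rw [this, div_pow]
  field_simp

end Limits

section MainThm

variable {K : Type v} [Field K] {ι : Type*} [DecidableEq ι]

/-- the case of zero weights on `E` -/
lemma main_base [Infinite K] {U : Type u} [AddCommGroup U] [Module K U] (η : ι → U) (ζ : ℕ → U)
    (E : Finset ι) (hG : Good K η ζ E) (w0 : ℕ) (hw0 : 0 < w0) (w : ι → ℕ)
    (hw : ∀ e ∈ E, w e = 0) :
    Tendsto (fun m : ℕ => (finrank K ((RR (K := K) η ζ E w0 w) ^ m : Submodule K _) : ℝ) /
      (m : ℝ) ^ E.card) atTop (𝓝 (pnat K η E w0 w : ℝ)) := by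
  have hR : RR (K := K) η ζ E w0 w = (W0 (SymmetricAlgebra.ι K U) η ζ E) ^ w0 := by
    rw [RR, Finset.prod_congr rfl (g := fun _ => 1)]
    · simp
    · intro e he
      rw [hw e he, pow_zero]
  rw [pnat_zero η E w0 hw, Nat.cast_pow]
  refine tendsto_of_tendsto_of_tendsto_of_le_of_le' (tendsto_base_lower w0 E.card)
    (tendsto_base_upper w0 E.card) ?_ ?_
  · filter_upwards [eventually_ge_atTop E.card] with m hm
    have h1 := LB2 E.card U η ζ E rfl hG (m * w0)
    have h2 := Nat.pow_sub_le_descFactorial (m * w0) E.card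
    rw [hR, ← pow_mul, mul_comm w0 m]
    gcongr
    have h3 : E.card ≤ m * w0 := hm.trans (Nat.le_mul_of_pos_right m hw0)
    have h4 : ((m : ℝ) * w0 - E.card) ≤ ((m * w0 + 1 - E.card : ℕ) : ℝ) := by
      rw [Nat.cast_sub (by omega)]
      push_cast
      linarith
    have h5 : (0 : ℝ) ≤ (m : ℝ) * w0 - E.card := by
      have : (E.card : ℝ) ≤ ((m * w0 : ℕ) : ℝ) := by exact_mod_cast h3
      push_cast at this
      linarith
    calc ((m : ℝ) * w0 - E.card) ^ E.card ≤ ((m * w0 + 1 - E.card : ℕ) : ℝ) ^ E.card := by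
          gcongr
      _ ≤ _ := by exact_mod_cast h2.trans h1
  · filter_upwards with m
    rw [hR, ← pow_mul, mul_comm w0 m]
    gcongr
    exact_mod_cast UB1 (SymmetricAlgebra.ι K U) E (m * w0) _ η ζ rfl hG

/-- the inductive step, for a non-loop -/
lemma main_step [Infinite K] {U : Type u} [AddCommGroup U] [Module K U] (η : ι → U) (ζ : ℕ → U)
    (E : Finset ι) {f : ι} (hf0 : η f ≠ 0) (hf : f ∈ E) (w0 : ℕ) (hw0 : 0 < w0) (w : ι → ℕ)
    (h1 : Tendsto (fun m : ℕ => (finrank K ((RR (K := K) η ζ E w0 (Function.update w f 0)) ^ m :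
      Submodule K _) : ℝ) / (m : ℝ) ^ E.card) atTop
      (𝓝 (pnat K η E w0 (Function.update w f 0) : ℝ)))
    (h2 : Tendsto (fun m : ℕ => (finrank K ((RR (K := K) (qc (K := K) (η f) η) (qc (K := K) (η f) ζ) (E.erase f) w0
      (Function.update w f 0)) ^ m : Submodule K _) : ℝ) / (m : ℝ) ^ (E.erase f).card) atTop
      (𝓝 (pnat K (qc (K := K) (η f) η) (E.erase f) w0 (Function.update w f 0) : ℝ))) :
    Tendsto (fun m : ℕ => (finrank K ((RR (K := K) η ζ E w0 w) ^ m : Submodule K _) : ℝ) /
      (m : ℝ) ^ E.card) atTop (𝓝 (pnat K η E w0 w : ℝ)) := by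
  set Q := RR (K := K) η ζ E w0 (Function.update w f 0) with hQ
  set Q' := RR (K := K) (qc (K := K) (η f) η) (qc (K := K) (η f) ζ) (E.erase f) w0 (Function.update w f 0) with hQ'
  have hmap : Q.map (cut (K := K) (η f)).toLinearMap = Q' :=
    map_cut_RR η ζ E hf0 hf w0 (Function.update_self f 0 w)
  have hQfg : Q.FG := RR_fg _ _ _ _ _
  have hQinv : Inv Q := RR_inv _ _ _ _ _
  have hreg : ∀ a : SymmetricAlgebra K U, SymmetricAlgebra.ι K U (η f) * a = 0 → a = 0 :=
    fun a h => ι_reg hf0 a h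
  obtain ⟨N, hN⟩ := uniform_sat (cut (K := K) (η f)) (cut_self (η f)) hQfg
    (fun m => exists_kerProp hf0 (hQfg.pow m) (hQinv.pow m))
  have hR : ∀ m, (RR (K := K) η ζ E w0 w) ^ m =
      (Ls K (SymmetricAlgebra.ι K U (η f))) ^ (w f * m) * Q ^ m := by
    intro m
    rw [RR_update η ζ E hf, mul_pow, ← pow_mul]
  have hmapm : ∀ m, (Q ^ m).map (cut (K := K) (η f)).toLinearMap = Q' ^ m := by
    intro m
    rw [Submodule.map_pow, hmap]
  have hLsQ : Ls K (SymmetricAlgebra.ι K U (η f)) ≤ Q := by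
    refine (Ls_le_W0 (SymmetricAlgebra.ι K U) η ζ hf).trans ?_
    rw [hQ, RR]
    refine le_trans ?_ (le_mul_of_one_mem_right (one_mem_prod fun e _ =>
      one_mem_pow (one_mem_Ls _) _))
    obtain ⟨b, rfl⟩ := Nat.exists_eq_succ_of_ne_zero hw0.ne'
    rw [pow_succ']
    exact le_mul_of_one_mem_right (one_mem_pow (one_mem_W0 _ _ _ _) _)
  have hcard : (E.erase f).card + 1 = E.card := Finset.card_erase_add_one hf
  have hlow : ∀ m, finrank K (Q ^ m : Submodule K _) +
      (w f * m) * finrank K (Q' ^ m : Submodule K _) ≤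
      finrank K ((RR (K := K) η ζ E w0 w) ^ m : Submodule K _) := by
    intro m
    have := LBpow (cut (K := K) (η f)) (cut_self (η f)) hreg (hQfg.pow m) (w f * m)
    rw [hmapm] at this
    rwa [hR]
  have hupp : ∀ m, finrank K ((RR (K := K) η ζ E w0 w) ^ m : Submodule K _) ≤
      finrank K (Q ^ (m + N) : Submodule K _) +
      (w f * m) * finrank K (Q' ^ m : Submodule K _) := by
    intro m
    have h3 := UBpow (cut (K := K) (η f)) (cut_self (η f)) (hQfg.pow m) (hN m) (w f * m)
    rw [hmapm] at h3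
    have h4 := pow_mul_mono_exp (u := SymmetricAlgebra.ι K U (η f)) (hQfg.pow m) (w f * m) N
    have h5 : finrank K ((Ls K (SymmetricAlgebra.ι K U (η f))) ^ N * Q ^ m : Submodule K _) ≤
        finrank K (Q ^ (m + N) : Submodule K _) := by
      apply finrank_le_of_le (hQfg.pow _)
      rw [pow_add, mul_comm]
      exact mul_le_mul' le_rfl (pow_le_pow_left' hLsQ N)
    rw [hR]
    omega
  have h1' := tendsto_shift (N := N) h1
  have hlim : Tendsto (fun m : ℕ => (w f : ℝ) *
      ((finrank K (Q' ^ m : Submodule K _) : ℝ) / (m : ℝ) ^ (E.erase f).card)) atTop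
      (𝓝 ((w f : ℝ) * (pnat K (qc (K := K) (η f) η) (E.erase f) w0 (Function.update w f 0) : ℝ))) :=
    h2.const_mul _
  have heq : (pnat K η E w0 w : ℝ) = (pnat K η E w0 (Function.update w f 0) : ℝ) +
      (w f : ℝ) * (pnat K (qc (K := K) (η f) η) (E.erase f) w0 (Function.update w f 0) : ℝ) := by
    rw [pnat_contract η E hf0 hf]
    push_cast
    ring
  have hdiv : ∀ m : ℕ, 0 < m → ((w f * m : ℕ) : ℝ) * (finrank K (Q' ^ m : Submodule K _) : ℝ) /
      (m : ℝ) ^ E.card = (w f : ℝ) *
      ((finrank K (Q' ^ m : Submodule K _) : ℝ) / (m : ℝ) ^ (E.erase f).card) := by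
    intro m hm
    have hm' : (m : ℝ) ≠ 0 := by positivity
    rw [← hcard, pow_succ]
    push_cast
    field_simp
  rw [heq]
  refine tendsto_of_tendsto_of_tendsto_of_le_of_le' (h1.add hlim) (h1'.add hlim) ?_ ?_
  · filter_upwards [eventually_gt_atTop 0] with m hm
    rw [← hdiv m hm, ← add_div]
    gcongr
    exact_mod_cast hlow m
  · filter_upwards [eventually_gt_atTop 0] with m hm
    rw [← hdiv m hm, ← add_div]
    gcongr
    exact_mod_cast hupp m

/-- **Main asymptotic theorem.** -/
theorem main_asymp [Infinite K] : ∀ (n : ℕ) (U : Type u) [AddCommGroup U] [Module K U]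
    (η : ι → U) (ζ : ℕ → U) (E : Finset ι), E.card = n → Good K η ζ E →
    ∀ (w0 : ℕ), 0 < w0 → ∀ w : ι → ℕ,
    Tendsto (fun m : ℕ => (finrank K ((RR (K := K) η ζ E w0 w) ^ m : Submodule K _) : ℝ) /
      (m : ℝ) ^ E.card) atTop (𝓝 (pnat K η E w0 w : ℝ)) := by
  intro n
  induction n with
  | zero =>
    intro U _ _ η ζ E hE hG w0 hw0 w
    refine main_base η ζ E hG w0 hw0 w ?_
    intro e he
    rw [Finset.card_eq_zero] at hE
    simp [hE] at he
  | succ n ihn =>
    intro U _ _ η ζ E hE hG w0 hw0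
    have key : ∀ k, ∀ w : ι → ℕ, (E.filter fun e => w e ≠ 0).card = k →
        Tendsto (fun m : ℕ => (finrank K ((RR (K := K) η ζ E w0 w) ^ m : Submodule K _) : ℝ) /
          (m : ℝ) ^ E.card) atTop (𝓝 (pnat K η E w0 w : ℝ)) := by
      intro k
      induction k with
      | zero =>
        intro w hk
        refine main_base η ζ E hG w0 hw0 w ?_
        intro e he
        by_contra hne
        have : e ∈ E.filter fun e => w e ≠ 0 := Finset.mem_filter.mpr ⟨he, hne⟩
        rw [Finset.card_eq_zero] at hk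
        simp [hk] at this
      | succ k ihk =>
        intro w hk
        obtain ⟨f, hf⟩ : (E.filter fun e => w e ≠ 0).Nonempty := by
          rw [← Finset.card_pos]; omega
        have hf2 := (Finset.mem_filter.mp hf)
        have hcard : (E.filter fun e => Function.update w f 0 e ≠ 0).card = k := by
          have : (E.filter fun e => Function.update w f 0 e ≠ 0) =
              (E.filter fun e => w e ≠ 0).erase f := by
            ext e
            simp only [Finset.mem_filter, Finset.mem_erase]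
            by_cases h : e = f
            · subst h; simp
            · rw [Function.update_of_ne h]; tauto
          rw [this, Finset.card_erase_of_mem hf, hk]; rfl
        have h1 := ihk (Function.update w f 0) hcard
        by_cases h0 : η f = 0
        · rw [pnat_loop η E h0]
          have : RR (K := K) η ζ E w0 w = RR (K := K) η ζ E w0 (Function.update w f 0) := by
            rw [RR_update η ζ E hf2.1, h0, map_zero, Ls_zero, one_pow, one_mul]
          rw [this]
          exact h1
        · refine main_step η ζ E h0 hf2.1 w0 hw0 w h1 ?_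
          exact ihn (Quo K (η f)) _ _ (E.erase f)
            (by rw [Finset.card_erase_of_mem hf2.1, hE]; rfl) (hG.contract h0 hf2.1) w0 hw0 _
    intro w
    exact key _ w rfl

end MainThm

end VolMat
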