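import Pool.Agent.Work.MP_9eee85_co.Basic

/-!
Uniform saturation: a Noetherian argument.
-/

namespace VolMat

open Submodule Module

section Noeth

variable {K : Type*} [Field K] {A B : Type*} [CommRing A] [Algebra K A] [CommRing B] [Algebra K B]

/-- the kernel property for `W^(N+1) Q^m` -/
def KerProp (φ : A →ₐ[K] B) (u : A) (Q : Submodule K A) (N : ℕ) : Prop :=
  ∀ x ∈ (Ls K u) ^ (N + 1) * Q, φ x = 0 → ∃ y ∈ (Ls K u) ^ N * Q, x = u * y

lemma KerProp.succ {φ : A →ₐ[K] B} {u : A} (hu : φ u = 0) {Q : Submodule K A} {N : ℕ}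
    (h : KerProp φ u Q N) : KerProp φ u Q (N + 1) := by
  intro x hx hφ
  rw [pow_succ', mul_assoc, mem_Ls_mul] at hx
  obtain ⟨a, ha, b, hb, rfl⟩ := hx
  have h0 : φ a = 0 := by simpa [hu] using hφ
  obtain ⟨c, hc, rfl⟩ := h a ha h0
  refine ⟨c + b, add_mem ?_ hb, by ring⟩
  rw [pow_succ', mul_assoc]
  exact le_Ls_mul u _ hc

lemma KerProp.mono {φ : A →ₐ[K] B} {u : A} (hu : φ u = 0) {Q : Submodule K A} {N N' : ℕ}
    (h : KerProp φ u Q N) (hN : N ≤ N') : KerProp φ u Q N' := by
  induction N', hN using Nat.le_induction with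
  | base => exact h
  | succ n _ ih => exact ih.succ hu

open MvPolynomial in
/-- Uniform saturation. -/
theorem uniform_sat (φ : A →ₐ[K] B) {u : A} (hu : φ u = 0) {Q : Submodule K A} (hQ : Q.FG)
    (H : ∀ m, ∃ N, KerProp φ u (Q ^ m) N) :
    ∃ N, ∀ m, KerProp φ u (Q ^ m) N := by
  classical
  obtain ⟨s, hs⟩ := hQ
  let e0 : Fin 2 →₀ ℕ := Finsupp.single 0 1
  let e1 : Fin 2 →₀ ℕ := Finsupp.single 1 1
  let R : (Fin 2 →₀ ℕ) → Submodule K A := fun a => Q ^ (a 0) * (Ls K u) ^ (a 1)
  have hR : ∀ a b, R a * R b = R (a + b) := by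
    intro a b
    simp only [R, Finsupp.add_apply, pow_add]
    ring
  have hR0 : R 0 = 1 := by simp [R]
  let G : Set (MvPolynomial (Fin 2) A) :=
    (fun q => monomial e0 q) '' (s : Set A) ∪ (fun q => monomial e1 q) '' ({1, u} : Set A)
  have hG : G.Finite := (s.finite_toSet.image _).union ((Set.toFinite _).image _)
  let S : Subalgebra K (MvPolynomial (Fin 2) A) := Algebra.adjoin K G
  have hGS : G ⊆ S := Algebra.subset_adjoin
  -- Claim 1
  have c1 : ∀ x ∈ S, ∀ a, coeff a x ∈ R a := by
    intro x hx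
    induction hx using Algebra.adjoin_induction with
    | mem x hx =>
      intro a
      rcases hx with ⟨q, hq, rfl⟩ | ⟨q, hq, rfl⟩
      · simp only [coeff_monomial]
        split_ifs with h
        · subst h
          have : R e0 = Q := by simp [R, e0]
          rw [this, ← hs]
          exact subset_span hq
        · exact zero_mem _
      · simp only [coeff_monomial]
        split_ifs with h
        · subst h
          have : R e1 = Ls K u := by simp [R, e1]
          rw [this]
          exact subset_span hq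
        · exact zero_mem _
    | algebraMap r =>
      intro a
      have : algebraMap K (MvPolynomial (Fin 2) A) r = monomial 0 (algebraMap K A r) := by
        rw [IsScalarTower.algebraMap_apply K A (MvPolynomial (Fin 2) A)]
        rfl
      rw [this, coeff_monomial]
      split_ifs with h
      · subst h
        rw [hR0]
        exact Submodule.mem_one.mpr ⟨r, rfl⟩
      · exact zero_mem _
    | add x y _ _ hx hy =>
      intro a
      rw [coeff_add]
      exact add_mem (hx a) (hy a)
    | mul x y _ _ hx hy =>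
      intro a
      rw [coeff_mul]
      refine sum_mem fun p hp => ?_
      rw [Finset.HasAntidiagonal.mem_antidiagonal] at hp
      rw [← hp, ← hR]
      exact Submodule.mul_mem_mul (hx _) (hy _)
  -- Claim 2
  let T : (Fin 2 →₀ ℕ) → Submodule K A := fun a =>
    (Subalgebra.toSubmodule S).comap ((monomial a : A →ₗ[A] MvPolynomial (Fin 2) A).restrictScalars K)
  have hT : ∀ a x, x ∈ T a ↔ monomial a x ∈ S := by
    intro a x
    simp [T]
  have hTT : ∀ a b, T a * T b ≤ T (a + b) := by
    intro a b
    rw [Submodule.mul_le]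
    intro m hm n hn
    rw [hT] at hm hn ⊢
    rw [← monomial_mul]
    exact mul_mem hm hn
  have hT0 : (1 : Submodule K A) ≤ T 0 := by
    rw [Submodule.one_le, hT]
    exact one_mem S
  have hTpow : ∀ (a : Fin 2 →₀ ℕ) (X : Submodule K A), X ≤ T a → ∀ n, X ^ n ≤ T (n • a) := by
    intro a X hX n
    induction n with
    | zero => simpa using hT0
    | succ n ih =>
      rw [pow_succ, succ_nsmul]
      exact (mul_le_mul' ih hX).trans (hTT _ _)
  have hTQ : Q ≤ T e0 := by
    rw [← hs, span_le]
    intro q hq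
    rw [SetLike.mem_coe, hT]
    exact hGS (Or.inl ⟨q, hq, rfl⟩)
  have hTW : Ls K u ≤ T e1 := by
    rw [Ls, span_le]
    intro q hq
    rw [SetLike.mem_coe, hT]
    exact hGS (Or.inr ⟨q, hq, rfl⟩)
  have c2 : ∀ a, R a ≤ T a := by
    intro a
    have h1 := mul_le_mul' (hTpow e0 Q hTQ (a 0)) (hTpow e1 _ hTW (a 1))
    refine (h1.trans (hTT _ _)).trans (le_of_eq ?_)
    congr 1
    ext i
    fin_cases i <;> simp [e0, e1]
  -- Noetherian
  have : Algebra.FiniteType K S := Algebra.FiniteType.adjoin_of_finite hG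
  have : IsNoetherianRing S := Algebra.FiniteType.isNoetherianRing K S
  let ψ : S →+* MvPolynomial (Fin 2) B := (MvPolynomial.map (φ : A →+* B)).comp S.val.toRingHom
  have hfg : (RingHom.ker ψ).FG := IsNoetherian.noetherian _
  obtain ⟨g, hg⟩ := hfg
  choose N hN using H
  let I0 : ℕ := g.sup (fun x => (x : MvPolynomial (Fin 2) A).support.sup fun c => N (c 0))
  have hI0 : ∀ x ∈ g, ∀ c, coeff c (x : MvPolynomial (Fin 2) A) ≠ 0 → N (c 0) ≤ I0 := by
    intro x hx c hc
    refine le_trans ?_ (Finset.le_sup (f := fun x : S =>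
      (x : MvPolynomial (Fin 2) A).support.sup fun c => N (c 0)) hx)
    exact Finset.le_sup (f := fun c : Fin 2 →₀ ℕ => N (c 0)) (by rwa [MvPolynomial.mem_support_iff])
  have hgker : ∀ x ∈ g, ∀ c, φ (coeff c (x : MvPolynomial (Fin 2) A)) = 0 := by
    intro x hx c
    have : x ∈ RingHom.ker ψ := by rw [← hg]; exact subset_span hx
    rw [RingHom.mem_ker] at this
    have h2 := congrArg (coeff c) this
    simpa [ψ, coeff_map] using h2
  refine ⟨I0, ?_⟩
  intro m F hF hφ
  let a : Fin 2 →₀ ℕ := m • e0 + (I0 + 1) • e1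
  have ha0 : a 0 = m := by simp [a, e0, e1]
  have ha1 : a 1 = I0 + 1 := by simp [a, e0, e1]
  have hFR : F ∈ R a := by
    simp only [R, ha0, ha1]
    rwa [mul_comm]
  have hFS : monomial a F ∈ S := (hT _ _).mp (c2 a hFR)
  have hker : (⟨monomial a F, hFS⟩ : S) ∈ RingHom.ker ψ := by
    rw [RingHom.mem_ker]
    simp only [ψ, RingHom.comp_apply]
    change MvPolynomial.map (φ : A →+* B) (monomial a F) = 0
    rw [map_monomial]
    simp [hφ]
  rw [← hg, Submodule.mem_span_finset] at hker
  obtain ⟨f, -, hf⟩ := hker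
  have hval : monomial a F = ∑ x ∈ g, (f x : MvPolynomial (Fin 2) A) * (x : MvPolynomial (Fin 2) A) := by
    have := congrArg (Subtype.val) hf
    simpa using this.symm
  have hcoef : F = ∑ x ∈ g, ∑ p ∈ Finset.HasAntidiagonal.antidiagonal a,
      coeff p.1 (f x : MvPolynomial (Fin 2) A) * coeff p.2 (x : MvPolynomial (Fin 2) A) := by
    have := congrArg (coeff a) hval
    rw [coeff_monomial, if_pos rfl, coeff_sum] at this
    rw [this]
    exact Finset.sum_congr rfl fun x _ => coeff_mul _ _ _
  -- the target submodule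
  have key : F ∈ ((Ls K u) ^ I0 * Q ^ m).map (LinearMap.mulLeft K u) := by
    rw [hcoef]
    refine sum_mem fun x hx => sum_mem fun p hp => ?_
    rw [Finset.HasAntidiagonal.mem_antidiagonal] at hp
    by_cases hc : coeff p.2 (x : MvPolynomial (Fin 2) A) = 0
    · rw [hc, mul_zero]; exact zero_mem _
    have h1 := c1 _ (f x).2 p.1
    have h2 := c1 _ x.2 p.2
    have h3 := hgker x hx p.2
    have h4 := hI0 x hx p.2 hc
    have e0' : p.1 0 + p.2 0 = m := by
      have := congrArg (fun q => q 0) hp
      simpa [ha0] using this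
    have e1' : p.1 1 + p.2 1 = I0 + 1 := by
      have := congrArg (fun q => q 1) hp
      simpa [ha1] using this
    generalize coeff p.2 (x : MvPolynomial (Fin 2) A) = c at *
    generalize coeff p.1 (f x : MvPolynomial (Fin 2) A) = d at *
    simp only [R] at h1 h2
    refine Submodule.mul_induction_on (C := fun d => d * c ∈
      ((Ls K u) ^ I0 * Q ^ m).map (LinearMap.mulLeft K u)) h1 ?_ ?_
    · intro q hq w hw
      have h5 : w * c ∈ (Ls K u) ^ (I0 + 1) * Q ^ (p.2 0) := by
        rw [← e1', pow_add, mul_assoc]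
        refine Submodule.mul_mem_mul hw ?_
        rw [mul_comm]
        exact h2
      have h6 : φ (w * c) = 0 := by rw [map_mul, h3, mul_zero]
      obtain ⟨y, hy, hy2⟩ := (hN (p.2 0)).mono hu h4 (w * c) h5 h6
      refine ⟨q * y, ?_, ?_⟩
      · rw [← e0', pow_add, ← mul_assoc, mul_comm ((Ls K u) ^ I0), mul_assoc]
        exact Submodule.mul_mem_mul hq hy
      · simp only [LinearMap.mulLeft_apply]
        rw [mul_assoc, hy2]; ring
    · intro x y hx hy
      rw [add_mul]
      exact add_mem hx hy
  obtain ⟨y, hy, hy2⟩ := key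
  exact ⟨y, hy, by simpa using hy2.symm⟩

end Noeth

end VolMat
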