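import Pool.Agent.Work.MP_9eee85_co.Basic

/-!
Semicontinuity of dimension in polynomial families.
-/

namespace VolMat

open Submodule Module Polynomial

variable {K : Type*} [Field K] {A : Type*} [CommRing A] [Algebra K A]

lemma exists_poly_eval (f : A →ₗ[K] K) (F : A[X]) :
    ∃ p : K[X], ∀ c : K, p.eval c = f (F.eval (algebraMap K A c)) := by
  refine ⟨∑ i ∈ Finset.range (F.natDegree + 1), Polynomial.C (f (F.coeff i)) * X ^ i, fun c => ?_⟩
  simp only [Polynomial.eval_finsetSum, Polynomial.eval_mul, Polynomial.eval_C,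
    Polynomial.eval_pow, Polynomial.eval_X]
  rw [Polynomial.eval_eq_sum_range, map_sum]
  refine Finset.sum_congr rfl fun i _ => ?_
  rw [← map_pow, mul_comm (F.coeff i), ← Algebra.smul_def, map_smul, smul_eq_mul, mul_comm]

/-- evaluation at a scalar -/
noncomputable def evc (A : Type*) [CommRing A] [Algebra K A] (c : K) : A[X] →ₐ[K] A :=
  (Polynomial.aeval (algebraMap K A c) : A[X] →ₐ[A] A).restrictScalars K

lemma evc_apply (c : K) (F : A[X]) : evc A c F = F.eval (algebraMap K A c) := by
  simp [evc, Polynomial.coe_aeval_eq_eval]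

lemma semicont [Infinite K] {S : Submodule K A[X]} (hS : S.FG) :
    ∃ c : K, c ≠ 0 ∧ finrank K (S.map (evc A (0 : K)).toLinearMap) ≤
      finrank K (S.map (evc A c).toLinearMap) := by
  classical
  set T := S.map (evc A (0 : K)).toLinearMap with hT
  have hTfg : T.FG := hS.map _
  have hfin : Module.Finite K T := Module.Finite.iff_fg.mpr hTfg
  let n := finrank K T
  let b := Module.finBasis K T
  have hb : ∀ i, ∃ F ∈ S, evc A (0 : K) F = (b i : A) := by
    intro i
    obtain ⟨F, hF, hF2⟩ := (b i).2
    exact ⟨F, hF, hF2⟩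
  choose F hFS hF using hb
  -- dual functionals
  have hd : ∀ i, ∃ f : A →ₗ[K] K, ∀ x : T, f x = b.coord i x := by
    intro i
    obtain ⟨g, hg⟩ := LinearMap.exists_extend (b.coord i)
    exact ⟨g, fun x => by rw [← hg]; rfl⟩
  choose f hf using hd
  choose p hp using fun i k => exists_poly_eval (f i) (F k)
  let M : Matrix (Fin n) (Fin n) K[X] := Matrix.of fun i k => p i k
  have hM : ∀ c : K, (M.map (Polynomial.evalRingHom c)).det = M.det.eval c := by
    intro c
    rw [← Polynomial.coe_evalRingHom, RingHom.map_det]
    rfl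
  have hM0 : M.det.eval 0 = 1 := by
    rw [← hM]
    have : M.map (Polynomial.evalRingHom 0) = 1 := by
      ext i k
      simp only [Matrix.map_apply, Matrix.of_apply, Polynomial.coe_evalRingHom, M, hp]
      have h1 := hF k
      rw [evc_apply] at h1
      rw [h1, hf, Matrix.one_apply, Module.Basis.coord_apply, Module.Basis.repr_self,
        Finsupp.single_apply]
      simp [eq_comm]
    rw [this, Matrix.det_one]
  obtain ⟨c, hc⟩ : ∃ c : K, (M.det * X).eval c ≠ 0 := by
    by_contra hcon
    push Not at hcon
    have h0 : M.det * X = 0 := Polynomial.funext (by simpa using hcon)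
    have h1 : M.det = 0 := by
      rcases mul_eq_zero.mp h0 with h | h
      · exact h
      · exact absurd h Polynomial.X_ne_zero
    rw [h1] at hM0
    simp at hM0
  rw [Polynomial.eval_mul, Polynomial.eval_X] at hc
  have hc0 : c ≠ 0 := right_ne_zero_of_mul hc
  have hdet : M.det.eval c ≠ 0 := left_ne_zero_of_mul hc
  refine ⟨c, hc0, ?_⟩
  have hfin2 : Module.Finite K (S.map (evc A c).toLinearMap) :=
    Module.Finite.iff_fg.mpr (hS.map _)
  let v : Fin n → S.map (evc A c).toLinearMap := fun k => ⟨evc A c (F k), ⟨F k, hFS k, rfl⟩⟩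
  have hv : LinearIndependent K v := by
    rw [Fintype.linearIndependent_iff]
    intro g hg
    have h1 : (M.map (Polynomial.evalRingHom c)).mulVec g = 0 := by
      ext i
      have h2 := congrArg (fun x : (S.map (evc A c).toLinearMap) => f i (x : A)) hg
      simp only [Submodule.coe_sum, Submodule.coe_smul, map_sum, map_smul, v,
        ZeroMemClass.coe_zero, map_zero] at h2
      simp only [Matrix.mulVec, dotProduct, Matrix.map_apply, Matrix.of_apply,
        Polynomial.coe_evalRingHom, M, hp,
        Pi.zero_apply]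
      rw [← h2]
      refine Finset.sum_congr rfl fun k _ => ?_
      rw [evc_apply, smul_eq_mul, mul_comm]
    have h3 := Matrix.eq_zero_of_mulVec_eq_zero (by rw [hM]; exact hdet) h1
    intro i
    rw [h3]; rfl
  have := hv.fintype_card_le_finrank
  simpa using this

end VolMat
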