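import Pool.Agent.Work.MP_9eee85_co.Degen
import Pool.Agent.Work.MP_9eee85_co.GrowthH

/-!
Symmetric algebras: cutting by a vector, translations, contraction.
-/

namespace VolMat

open Submodule Module Polynomial

section Cut

variable {K : Type*} [Field K] {U : Type*} [AddCommGroup U] [Module K U]


/-- the quotient space `U / u` -/
abbrev Quo (K : Type*) [Field K] {U : Type*} [AddCommGroup U] [Module K U] (u : U) : Type _ :=
  U ⧸ span K {u}

/-- restriction to the hyperplane `u = 0` -/
noncomputable def cut (u : U) : SymmetricAlgebra K U →ₐ[K] SymmetricAlgebra K (Quo K u) :=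
  SymmetricAlgebra.lift ((SymmetricAlgebra.ι K (Quo K u)) ∘ₗ (span K {u}).mkQ)

lemma cut_ι (u v : U) : cut (K := K) u (SymmetricAlgebra.ι K U v) = SymmetricAlgebra.ι K (Quo K u) ((span K {u}).mkQ v) := by
  simp [cut]

lemma cut_self (u : U) : cut (K := K) u (SymmetricAlgebra.ι K U u) = 0 := by
  rw [cut_ι]
  have : (span K {u}).mkQ u = 0 := by
    rw [Submodule.mkQ_apply, Submodule.Quotient.mk_eq_zero]
    exact mem_span_singleton_self u
  rw [this, map_zero]

/-- expansion along `u` -/
noncomputable def expan (u : U) (l : U →ₗ[K] K) : SymmetricAlgebra K U →ₐ[K] (SymmetricAlgebra K (Quo K u))[X] :=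
  SymmetricAlgebra.lift
    ((Polynomial.CAlgHom : SymmetricAlgebra K (Quo K u) →ₐ[K] (SymmetricAlgebra K (Quo K u))[X]).toLinearMap ∘ₗ
      (SymmetricAlgebra.ι K (Quo K u)) ∘ₗ (span K {u}).mkQ + l.smulRight (X : (SymmetricAlgebra K (Quo K u))[X]))

lemma expan_ι (u : U) (l : U →ₗ[K] K) (v : U) :
    expan u l (SymmetricAlgebra.ι K U v) = C (SymmetricAlgebra.ι K (Quo K u) ((span K {u}).mkQ v)) + l v • X := by
  simp [expan]

lemma expan_self {u : U} {l : U →ₗ[K] K} (hl : l u = 1) : expan u l (SymmetricAlgebra.ι K U u) = X := by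
  rw [expan_ι]
  have : (span K {u}).mkQ u = 0 := by
    rw [Submodule.mkQ_apply, Submodule.Quotient.mk_eq_zero]
    exact mem_span_singleton_self u
  rw [this, map_zero, hl]
  simp

lemma ev0_expan (u : U) (l : U →ₗ[K] K) (x : SymmetricAlgebra K U) :
    ev0 K (SymmetricAlgebra K (Quo K u)) (expan u l x) = cut u x := by
  have : (ev0 K (SymmetricAlgebra K (Quo K u))).comp (expan u l) = cut u := by
    apply SymmetricAlgebra.algHom_ext
    ext v
    simp [expan_ι, cut_ι, ev0_apply]
  exact congrArg (fun f => f x) this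

/-- the section -/
noncomputable def secU (u : U) (l : U →ₗ[K] K) (hl : l u = 1) : Quo K u →ₗ[K] U :=
  (span K {u}).liftQ (LinearMap.id - l.smulRight u) (by
    rw [span_le]
    rintro _ rfl
    simp [hl])

lemma secU_mk (u : U) (l : U →ₗ[K] K) (hl : l u = 1) (v : U) :
    secU u l hl ((span K {u}).mkQ v) = v - l v • u := by
  simp [secU]

lemma expan_injective {u : U} {l : U →ₗ[K] K} (hl : l u = 1) :
    Function.Injective (expan u l) := by
  let s : SymmetricAlgebra K (Quo K u) →ₐ[K] SymmetricAlgebra K U := SymmetricAlgebra.lift ((SymmetricAlgebra.ι K U) ∘ₗ secU u l hl)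
  let Ψ : (SymmetricAlgebra K (Quo K u))[X] →ₐ[K] SymmetricAlgebra K U :=
    Polynomial.eval₂AlgHom s (SymmetricAlgebra.ι K U u) (fun a => Commute.all _ _)
  have hC : ∀ a, Ψ (C a) = s a := by
    intro a
    change Polynomial.eval₂ (s : SymmetricAlgebra K (Quo K u) →+* SymmetricAlgebra K U) (SymmetricAlgebra.ι K U u) (C a) = s a
    simp
  have hX : Ψ X = SymmetricAlgebra.ι K U u := by
    change Polynomial.eval₂ (s : SymmetricAlgebra K (Quo K u) →+* SymmetricAlgebra K U) (SymmetricAlgebra.ι K U u) X = SymmetricAlgebra.ι K U u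
    simp
  have h : Ψ.comp (expan u l) = AlgHom.id K _ := by
    apply SymmetricAlgebra.algHom_ext
    refine LinearMap.ext fun v => ?_
    change Ψ (expan u l (SymmetricAlgebra.ι K U v)) = SymmetricAlgebra.ι K U v
    rw [expan_ι, map_add, map_smul, hC, hX]
    simp only [s, SymmetricAlgebra.lift_ι_apply, LinearMap.comp_apply, secU_mk, map_sub, map_smul]
    abel
  intro x y hxy
  have h1 : Ψ (expan u l x) = x := congrArg (fun f => f x) h
  have h2 : Ψ (expan u l y) = y := congrArg (fun f => f y) h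
  rw [← h1, ← h2, hxy]

lemma exists_l {u : U} (hu : u ≠ 0) : ∃ l : U →ₗ[K] K, l u = 1 := by
  obtain ⟨f, hf, -⟩ := Submodule.exists_le_ker_of_notMem (p := (⊥ : Submodule K U)) (v := u)
    (by simpa using hu)
  exact ⟨(f u)⁻¹ • f, by simp [inv_mul_cancel₀ hf]⟩

lemma ι_reg {u : U} (hu : u ≠ 0) (a : SymmetricAlgebra K U) (h : SymmetricAlgebra.ι K U u * a = 0) : a = 0 := by
  obtain ⟨l, hl⟩ := exists_l (K := K) hu
  have h1 := congrArg (expan u l) h
  rw [map_mul, expan_self hl, map_zero] at h1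
  have h2 : expan u l a = 0 := by
    ext j
    have := congrArg (fun p => p.coeff (j + 1)) h1
    simpa [Polynomial.coeff_X_mul] using this
  exact expan_injective hl (by rw [h2, map_zero])

end Cut

section Trans

variable {K : Type*} [Field K] {U : Type*} [AddCommGroup U] [Module K U]


/-- translation by a functional -/
noncomputable def trans (l : U →ₗ[K] K) : SymmetricAlgebra K U →ₐ[K] SymmetricAlgebra K U :=
  SymmetricAlgebra.lift (SymmetricAlgebra.ι K U + (Algebra.linearMap K (SymmetricAlgebra K U)) ∘ₗ l)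

lemma trans_ι (l : U →ₗ[K] K) (v : U) :
    trans l (SymmetricAlgebra.ι K U v) = SymmetricAlgebra.ι K U v + algebraMap K (SymmetricAlgebra K U) (l v) := by
  simp [trans]

/-- invariance under translations -/
def Inv (Q : Submodule K (SymmetricAlgebra K U)) : Prop := ∀ l : U →ₗ[K] K, Q.map (trans l).toLinearMap ≤ Q

lemma Inv.mul {P Q : Submodule K (SymmetricAlgebra K U)} (hP : Inv P) (hQ : Inv Q) : Inv (P * Q) := by
  intro l
  rw [Submodule.map_mul]
  exact mul_le_mul' (hP l) (hQ l)

lemma Inv.one : Inv (1 : Submodule K (SymmetricAlgebra K U)) := by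
  intro l
  exact (Submodule.map_one (trans l)).le

lemma Inv.pow {P : Submodule K (SymmetricAlgebra K U)} (hP : Inv P) (n : ℕ) : Inv (P ^ n) := by
  induction n with
  | zero => rw [pow_zero]; exact Inv.one
  | succ n ih => rw [pow_succ]; exact ih.mul hP

lemma Inv.prod {ι : Type*} [DecidableEq ι] {f : ι → Submodule K (SymmetricAlgebra K U)} {S : Finset ι}
    (h : ∀ e ∈ S, Inv (f e)) : Inv (∏ e ∈ S, f e) := by
  induction S using Finset.induction_on with
  | empty => rw [Finset.prod_empty]; exact Inv.one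
  | insert a S ha ih =>
    rw [Finset.prod_insert ha]
    exact (h a (Finset.mem_insert_self _ _)).mul
      (ih fun e he => h e (Finset.mem_insert_of_mem he))

lemma Inv_Ls (v : U) : Inv (Ls K (SymmetricAlgebra.ι K U v)) := by
  intro l
  rw [map_Ls, trans_ι]
  refine Ls_le (one_mem_Ls _) (add_mem (mem_Ls _) ?_)
  rw [Algebra.algebraMap_eq_smul_one]
  exact Submodule.smul_mem _ _ (one_mem_Ls _)

lemma Inv_Cc (ζ : ℕ → U) (k : ℕ) : Inv (Cc (SymmetricAlgebra.ι K U) ζ k) := by
  intro l
  rw [Submodule.map_le_iff_le_comap, Cc, span_le]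
  rintro x ⟨a, b, hab, rfl⟩
  rw [SetLike.mem_coe, Submodule.mem_comap, AlgHom.toLinearMap_apply, map_pow, trans_ι, add_pow]
  refine sum_mem fun i hi => ?_
  have hi' : i ≤ b := by simpa [Nat.lt_succ_iff] using hi
  have : (SymmetricAlgebra.ι K U (ζ a)) ^ i * (algebraMap K (SymmetricAlgebra K U) (l (ζ a))) ^ (b - i) * ((b.choose i : ℕ) : SymmetricAlgebra K U) =
      ((l (ζ a)) ^ (b - i) * ((b.choose i : ℕ) : K)) • (SymmetricAlgebra.ι K U (ζ a)) ^ i := by
    rw [Algebra.smul_def, map_mul, map_pow, map_natCast]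
    ring
  rw [this]
  exact Submodule.smul_mem _ _ (subset_span ⟨a, i, by omega, rfl⟩)

lemma Inv_W0 {ι : Type*} [DecidableEq ι] (η : ι → U) (ζ : ℕ → U) (E : Finset ι) :
    Inv (W0 (SymmetricAlgebra.ι K U) η ζ E) := by
  intro l
  rw [W0, Submodule.map_iSup]
  refine iSup_mono fun S => ?_
  rw [Submodule.map_iSup]
  refine iSup_mono fun _ => ?_
  exact ((Inv.prod fun e _ => Inv_Ls (η e)).mul (Inv_Cc ζ _)) l

lemma TInv_expan {u : U} {l : U →ₗ[K] K} {Q : Submodule K (SymmetricAlgebra K U)} (hQ : Inv Q) :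
    TInv (Q.map (expan u l).toLinearMap) := by
  rintro c _ ⟨x, hx, rfl⟩
  refine ⟨trans (c • l) x, hQ (c • l) ⟨x, hx, rfl⟩, ?_⟩
  let τ : (SymmetricAlgebra K (Quo K u))[X] →ₐ[K] (SymmetricAlgebra K (Quo K u))[X] :=
    (Polynomial.aeval (X + C (algebraMap K (SymmetricAlgebra K (Quo K u)) c)) :
      (SymmetricAlgebra K (Quo K u))[X] →ₐ[SymmetricAlgebra K (Quo K u)] (SymmetricAlgebra K (Quo K u))[X]).restrictScalars K
  have hτ : ∀ F, τ F = F.comp (X + C (algebraMap K (SymmetricAlgebra K (Quo K u)) c)) := by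
    intro F
    simp [τ, Polynomial.comp, Polynomial.aeval_def]
  have : (expan u l).comp (trans (c • l)) = τ.comp (expan u l) := by
    apply SymmetricAlgebra.algHom_ext
    refine LinearMap.ext fun v => ?_
    change expan u l (trans (c • l) (SymmetricAlgebra.ι K U v)) = τ (expan u l (SymmetricAlgebra.ι K U v))
    simp only [trans_ι, hτ,
      expan_ι, map_add, AlgHom.commutes, LinearMap.smul_apply, add_comp, C_comp, smul_comp, X_comp]
    rw [smul_eq_mul, IsScalarTower.algebraMap_apply K (SymmetricAlgebra K (Quo K u)) (SymmetricAlgebra K (Quo K u))[X],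
      Polynomial.algebraMap_apply, Algebra.algebraMap_self, RingHom.id_apply, smul_add, add_assoc]
    congr 2
    rw [mul_comm, map_mul, Polynomial.smul_C, ← Algebra.smul_def]
  have h2 := congrArg (fun f => f x) this
  simp only [AlgHom.comp_apply, hτ] at h2
  simpa using h2

/-- transfer of the kernel property -/
theorem exists_kerProp [Infinite K] {u : U} (hu : u ≠ 0) {Q : Submodule K (SymmetricAlgebra K U)}
    (hQ : Q.FG) (hinv : Inv Q) : ∃ N, KerProp (cut u) (SymmetricAlgebra.ι K U u) Q N := by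
  obtain ⟨l, hl⟩ := exists_l (K := K) hu
  obtain ⟨N, hN⟩ := exists_kerProp_X (hQ.map (expan u l).toLinearMap) (TInv_expan (u := u) (l := l) hinv)
  refine ⟨N, ?_⟩
  intro x hx hφ
  have h1 : expan u l x ∈ (Ls K (X : (SymmetricAlgebra K (Quo K u))[X])) ^ (N + 1) *
      Q.map (expan u l).toLinearMap := by
    rw [← expan_self hl, ← map_Ls, ← Submodule.map_pow, ← Submodule.map_mul]
    exact ⟨x, hx, rfl⟩
  have h2 : ev0 K (SymmetricAlgebra K (Quo K u)) (expan u l x) = 0 := by rw [ev0_expan, hφ]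
  obtain ⟨y', hy', hxy⟩ := hN _ h1 h2
  rw [← expan_self hl, ← map_Ls, ← Submodule.map_pow, ← Submodule.map_mul] at hy'
  obtain ⟨y, hy, rfl⟩ := hy'
  refine ⟨y, hy, expan_injective hl ?_⟩
  rw [hxy, map_mul, expan_self hl]
  rfl

end Trans

end VolMat
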